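import Pool.Agent.Lib.MP_926cc3_nt.RS.Defs
import Pool.Agent.Lib.MP_3efbeb_nt.RST.Defs

set_option autoImplicit false

namespace Pool.Agent.Lib.MP_3efbeb_nt.GL

/-- The sieve of level `W`: the number `n ≥ 2` is kept iff no prime `p ≤ W n` with `p < n` divides
it and no kept number `m` with `W n < m < n` strikes it out. -/
def KeptW (W : ℕ → ℕ) (strike : ℕ → ℕ → Prop) (n : ℕ) : Prop :=
  2 ≤ n ∧ (∀ p : ℕ, p.Prime → p ≤ W n → p < n → ¬ p ∣ n) ∧
    ∀ m : ℕ, ∀ _ : m < n, W n < m → KeptW W strike m → ¬ strike m n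
termination_by n

/-- The random set kept by the sieve of level `W` in which the kept number `m > W n` strikes out
`n > m` when the event `A m n` occurs. -/
def growSet {Ω : Type*} (W : ℕ → ℕ) (A : ℕ → ℕ → Set Ω) (ω : Ω) : Set ℕ :=
  {n | KeptW W (fun m n => ω ∈ A m n) n}

open Classical in
/-- the product of `1 - 1/m` over the elements `m` of `R` with `a < m < b` -/
noncomputable def mertensProd (R : Set ℕ) (a b : ℕ) : ℝ :=
  ∏ m ∈ (Finset.Ioo a b).filter (fun m => m ∈ R), (1 - 1 / (m : ℝ))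

end Pool.Agent.Lib.MP_3efbeb_nt.GL
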