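import Pool.Agent.Lib.MP_926cc3_nt.RS.Sieve
import Pool.Agent.Lib.MP_3efbeb_nt.GL.Def

set_option autoImplicit false
set_option linter.unusedSectionVars false
set_option linter.unusedVariables false

open Filter Topology MeasureTheory ProbabilityTheory

namespace Pool.Agent.Lib.MP_3efbeb_nt.GL

open Pool.Agent.Lib.MP_926cc3_nt.RS

variable {Ω : Type*} [m0 : MeasurableSpace Ω]

theorem keptW_iff (W : ℕ → ℕ) (strike : ℕ → ℕ → Prop) (n : ℕ) :
    KeptW W strike n ↔ 2 ≤ n ∧ (∀ p : ℕ, p.Prime → p ≤ W n → p < n → ¬ p ∣ n) ∧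
      ∀ m < n, W n < m → KeptW W strike m → ¬ strike m n := by
  rw [KeptW]

/-- if the level reaches up to `n`, then `n` is kept iff it is prime -/
theorem keptW_exact (W : ℕ → ℕ) (strike : ℕ → ℕ → Prop) (n : ℕ) (h : n ≤ W n + 1) :
    KeptW W strike n ↔ n.Prime := by
  rw [keptW_iff]
  constructor
  · rintro ⟨h2, h3, -⟩
    by_contra hp
    have h4 := Nat.minFac_prime (show n ≠ 1 by omega)
    have h5 : n.minFac < n := (Nat.not_prime_iff_minFac_lt h2).1 hp
    exact h3 _ h4 (by omega) h5 (Nat.minFac_dvd n)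
  · intro hp
    refine ⟨hp.two_le, fun p hpp _ hlt hd => ?_, fun m hm hW _ => by omega⟩
    rcases (Nat.dvd_prime hp).1 hd with h4 | h4
    · exact hpp.one_lt.ne' h4
    · omega

/-- the rough numbers of level `W` -/
def Rough (W : ℕ → ℕ) (n : ℕ) : Prop :=
  2 ≤ n ∧ ∀ p : ℕ, p.Prime → p ≤ W n → p < n → ¬ p ∣ n

open Classical in
/-- their indicator -/
noncomputable def rho (W : ℕ → ℕ) (n : ℕ) : ℝ := if Rough W n then 1 else 0

theorem rho_nonneg (W : ℕ → ℕ) (n : ℕ) : 0 ≤ rho W n := by unfold rho; split_ifs <;> norm_num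
theorem rho_le_one (W : ℕ → ℕ) (n : ℕ) : rho W n ≤ 1 := by unfold rho; split_ifs <;> norm_num

/-- the predictable density of the sieve -/
noncomputable def dW (W : ℕ → ℕ) (A : ℕ → ℕ → Set Ω) (n : ℕ) (ω : Ω) : ℝ :=
  rho W n * ∏ m ∈ Finset.Ioo (W n) n, (1 - ind (growSet W A) m ω / m)

namespace Sv

variable {μ : Measure Ω} [IsProbabilityMeasure μ] {W : ℕ → ℕ} {A : ℕ → ℕ → Set Ω}

theorem two_le {m : ℕ} {ω : Ω} (h : m ∈ growSet W A ω) : 2 ≤ m := ((keptW_iff _ _ _).1 h).1

theorem mem_iff (n : ℕ) (ω : Ω) : n ∈ growSet W A ω ↔ Rough W n ∧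
    ∀ m, W n < m → m < n → m ∈ growSet W A ω → ω ∉ A m n := by
  have h1 := keptW_iff W (fun m n => ω ∈ A m n) n
  constructor
  · intro h
    obtain ⟨h2, h3, h4⟩ := h1.1 h
    exact ⟨⟨h2, h3⟩, fun m hm hmn hk => h4 m hmn hm hk⟩
  · rintro ⟨⟨h2, h3⟩, h4⟩
    exact h1.2 ⟨h2, h3, fun m hmn hm hk => h4 m hm hmn hk⟩

theorem adapted (hA : ∀ m n, MeasurableSet (A m n)) (n : ℕ) :
    MeasurableSet[filt A hA n] {ω | n ∈ growSet W A ω} := by
  induction n using Nat.strong_induction_on with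
  | _ n ih =>
    have : {ω | n ∈ growSet W A ω} = {ω | Rough W n} ∩
        ⋂ m ∈ Finset.Ioo (W n) n, ({ω | m ∈ growSet W A ω} ∩ A m n)ᶜ := by
      ext ω
      simp only [Set.mem_inter_iff, Set.mem_iInter, Finset.mem_Ioo, Set.mem_compl_iff,
        Set.mem_ofPred_eq, not_and]
      constructor
      · intro h
        obtain ⟨h2, h3⟩ := (mem_iff n ω).1 h
        exact ⟨h2, fun m hm h4 => h3 m hm.1 hm.2 h4⟩
      · rintro ⟨h2, h3⟩
        exact (mem_iff n ω).2 ⟨h2, fun m h4 h5 h6 => h3 m ⟨h4, h5⟩ h6⟩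
    rw [this]
    apply MeasurableSet.inter
    · exact @MeasurableSet.const _ (filt A hA n) _
    · apply Finset.measurableSet_biInter
      intro m hm
      rw [Finset.mem_Ioo] at hm
      apply MeasurableSet.compl
      apply MeasurableSet.inter
      · exact (filt A hA).mono hm.2.le _ (ih m hm.2)
      · exact Sieve.mem_filt hA le_rfl

theorem ind_meas (hA : ∀ m n, MeasurableSet (A m n)) {n k : ℕ} (h : n ≤ k) :
    Measurable[filt A hA k] (ind (growSet W A) n) := by
  have h1 : MeasurableSet[filt A hA k] {ω | n ∈ growSet W A ω} :=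
    (filt A hA).mono h _ (adapted hA n)
  exact Measurable.indicator measurable_const h1

theorem factor_bounds (m : ℕ) (ω : Ω) : 1 / 2 ≤ 1 - ind (growSet W A) m ω / m ∧
    1 - ind (growSet W A) m ω / m ≤ 1 := by
  by_cases h : m ∈ growSet W A ω
  · have h2 : 2 ≤ m := two_le h
    have h3 : (2 : ℝ) ≤ m := by exact_mod_cast h2
    rw [Dens.ind_of_mem h]
    have h4 : 1 / (m : ℝ) ≤ 1 / 2 := one_div_le_one_div_of_le (by norm_num) h3
    have h5 : 0 ≤ 1 / (m : ℝ) := by positivity
    constructor <;> linarith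
  · rw [Dens.ind_of_not h]; norm_num

theorem prod_nonneg (B : Finset ℕ) (ω : Ω) :
    0 ≤ ∏ m ∈ B, (1 - ind (growSet W A) m ω / m) :=
  Finset.prod_nonneg (fun m _ => by linarith [(factor_bounds (W := W) (A := A) m ω).1])

theorem prod_le_one (B : Finset ℕ) (ω : Ω) :
    ∏ m ∈ B, (1 - ind (growSet W A) m ω / m) ≤ 1 :=
  Finset.prod_le_one (fun m _ => by linarith [(factor_bounds (W := W) (A := A) m ω).1])
    (fun m _ => (factor_bounds m ω).2)

/-- the main computation -/
theorem strike_prod (hA : ∀ m n, MeasurableSet (A m n))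
    (hI : iIndepSet (fun q : ℕ × ℕ => A q.1 q.2) μ) {n : ℕ} (hn : 1 ≤ n) (B : Finset ℕ)
    (hB : ∀ m ∈ B, m < n) (hP : ∀ m ∈ B, μ.real (A m n) = 1 / m) :
    ∀ Z : Ω → ℝ, Measurable[filt A hA (n - 1)] Z → (∃ C, ∀ ω, |Z ω| ≤ C) →
    ∫ ω, Z ω * ∏ m ∈ B, (1 - ind (growSet W A) m ω * (A m n).indicator (fun _ => (1 : ℝ)) ω) ∂μ =
    ∫ ω, Z ω * ∏ m ∈ B, (1 - ind (growSet W A) m ω / m) ∂μ := by
  classical
  induction B using Finset.induction_on with
  | empty => intro Z hZ hb; simp
  | insert m1 B hm1 ih =>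
    intro Z hZ hb
    have hB' : ∀ m ∈ B, m < n := fun m hm => hB m (Finset.mem_insert_of_mem hm)
    have hm1n := hB m1 (Finset.mem_insert_self _ _)
    have ih' := ih hB' (fun m hm => hP m (Finset.mem_insert_of_mem hm))
    set S : Set (ℕ × ℕ) := {q | q.2 ≤ n - 1} ∪ {q | q.2 = n ∧ q.1 ∈ B} with hS
    have hle1 : (filt A hA (n - 1)) ≤ gen A S := by
      apply MeasurableSpace.generateFrom_mono
      rintro t ⟨q, hq, rfl⟩
      exact ⟨q, Or.inl hq, rfl⟩
    have hle0 : gen A S ≤ m0 := by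
      apply MeasurableSpace.generateFrom_le
      rintro t ⟨q, hq, rfl⟩
      exact hA _ _
    have hAB : ∀ m ∈ B, MeasurableSet[gen A S] (A m n) := fun m hm =>
      MeasurableSpace.measurableSet_generateFrom ⟨(m, n), Or.inr ⟨rfl, hm⟩, rfl⟩
    set PR : Ω → ℝ := fun ω => ∏ m ∈ B,
      (1 - ind (growSet W A) m ω * (A m n).indicator (fun _ => (1 : ℝ)) ω) with hPR
    have hPRm : Measurable[gen A S] PR := by
      apply Finset.measurable_fun_prod
      intro m hm
      have h1 : Measurable[gen A S] (ind (growSet W A) m) :=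
        (ind_meas hA (show m ≤ n - 1 by have := (hB' m hm); omega)).mono hle1 le_rfl
      have h2 : Measurable[gen A S] ((A m n).indicator (fun _ => (1 : ℝ))) :=
        Measurable.indicator measurable_const (hAB m hm)
      exact measurable_const.sub (h1.mul h2)
    have hfac : ∀ (m : ℕ) (ω : Ω), 0 ≤ ind (growSet W A) m ω *
        (A m n).indicator (fun _ => (1 : ℝ)) ω ∧ ind (growSet W A) m ω *
        (A m n).indicator (fun _ => (1 : ℝ)) ω ≤ 1 := by
      intro m ω
      have h1 := Dens.ind_nonneg (R := growSet W A) m ω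
      have h2 := Dens.ind_le_one (R := growSet W A) m ω
      have h3 : 0 ≤ (A m n).indicator (fun _ => (1 : ℝ)) ω :=
        Set.indicator_nonneg (fun _ _ => zero_le_one) _
      have h4 : (A m n).indicator (fun _ => (1 : ℝ)) ω ≤ 1 :=
        Set.indicator_le_self' (fun _ _ => zero_le_one) _
      exact ⟨mul_nonneg h1 h3, mul_le_one₀ h2 h3 h4⟩
    have hPR0 : ∀ ω, 0 ≤ PR ω := fun ω => Finset.prod_nonneg (fun m _ => by
      linarith [(hfac m ω).2])
    have hPR1 : ∀ ω, PR ω ≤ 1 := fun ω => Finset.prod_le_one (fun m _ => by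
      linarith [(hfac m ω).2]) (fun m _ => by linarith [(hfac m ω).1])
    obtain ⟨C, hC⟩ := hb
    have hZG : Measurable[gen A S] Z := hZ.mono hle1 le_rfl
    have hi1 : Measurable[filt A hA (n - 1)] (ind (growSet W A) m1) :=
      ind_meas hA (by omega)
    set Y : Ω → ℝ := fun ω => Z ω * ind (growSet W A) m1 ω * PR ω with hY
    have hYm : Measurable[gen A S] Y := (hZG.mul (hi1.mono hle1 le_rfl)).mul hPRm
    have hYb : ∀ ω, |Y ω| ≤ C := by
      intro ω
      rw [hY]
      simp only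
      rw [abs_mul, abs_mul, abs_of_nonneg (Dens.ind_nonneg m1 ω), abs_of_nonneg (hPR0 ω)]
      have h1 := hC ω
      have h2 := Dens.ind_le_one (R := growSet W A) m1 ω
      have h2' := Dens.ind_nonneg (R := growSet W A) m1 ω
      have h3 := hPR1 ω
      have h4 := hPR0 ω
      have h5 := abs_nonneg (Z ω)
      calc |Z ω| * ind (growSet W A) m1 ω * PR ω ≤ |Z ω| * 1 * 1 := by gcongr
        _ ≤ C := by linarith
    have hstep := Sieve.indep_step (μ := μ) hA hI S (m1, n) (by
      rw [hS]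
      simp only [Set.mem_union, Set.mem_ofPred_eq, not_or, not_and]
      exact ⟨by omega, fun _ => hm1⟩) Y hYm ⟨C, hYb⟩
    simp only at hstep
    rw [hP m1 (Finset.mem_insert_self _ _)] at hstep
    -- integrability
    have hZPRm : Measurable[gen A S] (fun ω => Z ω * PR ω) := hZG.mul hPRm
    have hI1 : Integrable (fun ω => Z ω * PR ω) μ := by
      apply Dens.integrable_of _ (hZPRm.mono hle0 le_rfl)
      refine ⟨C, fun ω => ?_⟩
      rw [abs_mul, abs_of_nonneg (hPR0 ω)]
      have := hC ω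
      have h5 := abs_nonneg (Z ω)
      nlinarith [hPR1 ω, hPR0 ω]
    have hI2 : Integrable (fun ω => Y ω * (A m1 n).indicator (fun _ => (1 : ℝ)) ω) μ := by
      apply Dens.integrable_of _ ((hYm.mono hle0 le_rfl).mul
        (Measurable.indicator measurable_const (hA m1 n)))
      refine ⟨C, fun ω => ?_⟩
      change |Y ω * (A m1 n).indicator (fun _ => (1 : ℝ)) ω| ≤ C
      have h3 : 0 ≤ (A m1 n).indicator (fun _ => (1 : ℝ)) ω :=
        Set.indicator_nonneg (fun _ _ => zero_le_one) _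
      have h4 : (A m1 n).indicator (fun _ => (1 : ℝ)) ω ≤ 1 :=
        Set.indicator_le_self' (fun _ _ => zero_le_one) _
      rw [abs_mul, abs_of_nonneg h3]
      have := hYb ω
      have h5 := abs_nonneg (Y ω)
      nlinarith
    have hI3 : Integrable (fun ω => (1 / (m1 : ℝ)) * Y ω) μ :=
      (Dens.integrable_of _ (hYm.mono hle0 le_rfl) ⟨C, hYb⟩).const_mul _
    set Z' : Ω → ℝ := fun ω => Z ω * (1 - ind (growSet W A) m1 ω / m1) with hZ'
    have hZ'm : Measurable[filt A hA (n - 1)] Z' :=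
      hZ.mul (measurable_const.sub (hi1.div_const _))
    have hZ'b : ∃ C, ∀ ω, |Z' ω| ≤ C := by
      refine ⟨C, fun ω => ?_⟩
      rw [hZ']
      simp only
      have h1 := factor_bounds (W := W) (A := A) m1 ω
      rw [abs_mul, abs_of_nonneg (show 0 ≤ 1 - ind (growSet W A) m1 ω / m1 by linarith [h1.1])]
      have := hC ω
      have h5 := abs_nonneg (Z ω)
      nlinarith [h1.1, h1.2]
    calc ∫ ω, Z ω * ∏ m ∈ insert m1 B,
          (1 - ind (growSet W A) m ω * (A m n).indicator (fun _ => (1 : ℝ)) ω) ∂μ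
        = ∫ ω, (Z ω * PR ω - Y ω * (A m1 n).indicator (fun _ => (1 : ℝ)) ω) ∂μ := by
          apply integral_congr_ae
          refine ae_of_all _ (fun ω => ?_)
          change Z ω * ∏ m ∈ insert m1 B, _ = _
          rw [Finset.prod_insert hm1]
          simp only [hY, hPR]
          ring
      _ = ∫ ω, Z ω * PR ω ∂μ - ∫ ω, Y ω * (A m1 n).indicator (fun _ => (1 : ℝ)) ω ∂μ :=
          integral_sub hI1 hI2
      _ = ∫ ω, Z ω * PR ω ∂μ - ∫ ω, (1 / (m1 : ℝ)) * Y ω ∂μ := by
          rw [hstep, integral_const_mul]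
      _ = ∫ ω, (Z ω * PR ω - (1 / (m1 : ℝ)) * Y ω) ∂μ := (integral_sub hI1 hI3).symm
      _ = ∫ ω, Z' ω * PR ω ∂μ := by
          apply integral_congr_ae
          refine ae_of_all _ (fun ω => ?_)
          simp only [hY, hZ']
          ring
      _ = ∫ ω, Z' ω * ∏ m ∈ B, (1 - ind (growSet W A) m ω / m) ∂μ := ih' Z' hZ'm hZ'b
      _ = _ := by
          apply integral_congr_ae
          refine ae_of_all _ (fun ω => ?_)
          change _ = Z ω * ∏ m ∈ insert m1 B, _
          rw [Finset.prod_insert hm1]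
          simp only [hZ']
          ring

theorem ind_eq (n : ℕ) (ω : Ω) :
    ind (growSet W A) n ω = rho W n * ∏ m ∈ Finset.Ioo (W n) n,
      (1 - ind (growSet W A) m ω * (A m n).indicator (fun _ => (1 : ℝ)) ω) := by
  have h1 := mem_iff (W := W) (A := A) n ω
  by_cases hk : n ∈ growSet W A ω
  · rw [Dens.ind_of_mem hk]
    obtain ⟨h2, h3⟩ := h1.1 hk
    rw [rho, if_pos h2, one_mul]
    symm
    apply Finset.prod_eq_one
    intro m hm
    rw [Finset.mem_Ioo] at hm
    by_cases h4 : m ∈ growSet W A ω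
    · rw [Set.indicator_of_notMem (h3 m hm.1 hm.2 h4)]; ring
    · rw [Dens.ind_of_not h4]; ring
  · rw [Dens.ind_of_not hk]
    by_cases h2 : Rough W n
    · have h3 : ¬ ∀ m, W n < m → m < n → m ∈ growSet W A ω → ω ∉ A m n :=
        fun h => hk (h1.2 ⟨h2, h⟩)
      push Not at h3
      obtain ⟨m, h4, h5, h6, h7⟩ := h3
      symm
      have : ∏ m ∈ Finset.Ioo (W n) n, (1 - ind (growSet W A) m ω *
          (A m n).indicator (fun _ => (1 : ℝ)) ω) = 0 := by
        apply Finset.prod_eq_zero (Finset.mem_Ioo.2 ⟨h4, h5⟩)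
        rw [Dens.ind_of_mem h6, Set.indicator_of_mem h7]; ring
      rw [this, mul_zero]
    · rw [rho, if_neg h2, zero_mul]

theorem dens (hA : ∀ m n, MeasurableSet (A m n))
    (hI : iIndepSet (fun q : ℕ × ℕ => A q.1 q.2) μ)
    (hP : ∀ m n, W n < m → m < n → μ.real (A m n) = 1 / m) :
    Dens μ (filt A hA) (growSet W A) (dW W A) where
  adapted := adapted hA
  meas := fun n hn => by
    have : dW W A n = fun ω => rho W n *
        ∏ m ∈ Finset.Ioo (W n) n, (1 - ind (growSet W A) m ω / m) := rfl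
    rw [this]
    apply Measurable.const_mul
    apply Finset.measurable_fun_prod
    intro m hm
    rw [Finset.mem_Ioo] at hm
    exact measurable_const.sub ((ind_meas hA (by omega)).div_const _)
  nonneg := fun n ω => mul_nonneg (rho_nonneg W n) (prod_nonneg _ ω)
  le_one := fun n ω => mul_le_one₀ (rho_le_one W n) (prod_nonneg _ ω) (prod_le_one _ ω)
  dens := fun n hn Z hZ hb => by
    have hcZ : Measurable[filt A hA (n - 1)] (fun ω => Z ω * rho W n) := hZ.mul_const _
    obtain ⟨C, hC⟩ := hb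
    have hcb : ∃ C, ∀ ω, |Z ω * rho W n| ≤ C := by
      refine ⟨C, fun ω => ?_⟩
      rw [abs_mul, abs_of_nonneg (rho_nonneg W n)]
      have := hC ω
      have h5 := abs_nonneg (Z ω)
      nlinarith [rho_nonneg W n, rho_le_one W n]
    have h1 := strike_prod (μ := μ) (W := W) hA hI hn (Finset.Ioo (W n) n)
      (fun m hm => (Finset.mem_Ioo.1 hm).2)
      (fun m hm => hP m n (Finset.mem_Ioo.1 hm).1 (Finset.mem_Ioo.1 hm).2) _ hcZ hcb
    calc ∫ ω, Z ω * ind (growSet W A) n ω ∂μ
        = ∫ ω, (Z ω * rho W n) * ∏ m ∈ Finset.Ioo (W n) n, (1 - ind (growSet W A) m ω *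
            (A m n).indicator (fun _ => (1 : ℝ)) ω) ∂μ := by
          apply integral_congr_ae
          refine ae_of_all _ (fun ω => ?_)
          simp only
          rw [ind_eq n ω]; ring
      _ = _ := h1
      _ = _ := by
          apply integral_congr_ae
          refine ae_of_all _ (fun ω => ?_)
          simp only
          rw [dW]; ring

end Sv

end Pool.Agent.Lib.MP_3efbeb_nt.GL
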