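import Pool.Agent.Lib.MP_3efbeb_nt.GL.Tools
import Pool.Agent.Lib.MP_3efbeb_nt.GL.Sv

set_option autoImplicit false
set_option linter.unusedSectionVars false
set_option linter.unusedVariables false

open Filter Topology Asymptotics

namespace Pool.Agent.Lib.MP_3efbeb_nt.GL

open Pool.Agent.Lib.MP_926cc3_nt.RS Pool.Agent.Lib.MP_3efbeb_nt.RST

/-- the conditions on the level -/
structure Lev (W : ℕ → ℕ) : Prop where
  mono : Monotone W
  small : ∀ᶠ n : ℕ in atTop, 2 * (W n : ℝ) ≤ Real.log n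
  dbl : ∃ c : ℕ, ∀ᶠ n : ℕ in atTop, W (n ^ 2) ≤ c * W n

theorem tlog : Tendsto (fun n : ℕ => Real.log (n : ℝ)) atTop atTop :=
  Real.tendsto_log_atTop.comp tendsto_natCast_atTop_atTop

/-! ### harmonic sums -/

theorem harm_low {a b : ℕ} (ha : 1 ≤ a) (hab : a ≤ b) :
    Real.log b - Real.log a ≤ ∑ i ∈ Finset.Ico a b, 1 / (i : ℝ) := by
  induction b, hab using Nat.le_induction with
  | base => simp
  | succ b hb ih =>
    have hb0 : (0 : ℝ) < b := by exact_mod_cast (by omega : 0 < b)
    rw [Finset.sum_Ico_succ_top hb]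
    have h1 : Real.log ((b + 1 : ℕ) : ℝ) - Real.log b ≤ 1 / b := by
      push_cast
      rw [← Real.log_div (by linarith) (by linarith)]
      have := Real.log_le_sub_one_of_pos (show 0 < ((b : ℝ) + 1) / b by positivity)
      refine this.trans (le_of_eq ?_)
      field_simp
      ring
    linarith

theorem harm_up {a b : ℕ} (ha : 1 ≤ a) (hab : a ≤ b) :
    ∑ i ∈ Finset.Ico a b, 1 / (i : ℝ) ≤ Real.log b - Real.log a + 1 / a - 1 / b := by
  induction b, hab using Nat.le_induction with
  | base => simp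
  | succ b hb ih =>
    have hb0 : (0 : ℝ) < b := by exact_mod_cast (by omega : 0 < b)
    rw [Finset.sum_Ico_succ_top hb]
    have h1 : 1 / ((b + 1 : ℕ) : ℝ) ≤ Real.log ((b + 1 : ℕ) : ℝ) - Real.log b := by
      push_cast
      rw [← Real.log_div (by linarith) (by linarith)]
      have := Real.one_sub_inv_le_log_of_pos (show 0 < ((b : ℝ) + 1) / b by positivity)
      refine le_trans (le_of_eq ?_) this
      field_simp
      ring
    linarith

/-! ### the level -/

namespace Lev

variable {W : ℕ → ℕ}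

theorem lt_self (h : Lev W) : ∀ᶠ n : ℕ in atTop, W n + 1 < n := by
  have h1 : Tendsto (fun n : ℕ => (n : ℝ) / Real.log (n : ℝ) ^ 1) atTop atTop := div_log_atTop 1
  filter_upwards [h.small, h1.eventually_ge_atTop 1, eventually_ge_atTop 8] with n h2 h3 h4
  have hn : (8 : ℝ) ≤ n := by exact_mod_cast h4
  have hl : 0 < Real.log (n : ℝ) := Real.log_pos (by linarith)
  rw [pow_one, le_div_iff₀ hl, one_mul] at h3
  have : ((W n + 1 : ℕ) : ℝ) < n := by push_cast; linarith
  exact_mod_cast this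

/-- `θ (W n) log n → ∞` -/
theorem u_atTop (h : Lev W) :
    Tendsto (fun n : ℕ => Path.theta (W n) * Real.log (n : ℝ)) atTop atTop := by
  have h1 : Tendsto (fun n : ℕ => Real.sqrt (Real.log (n : ℝ) / 2)) atTop atTop :=
    Real.tendsto_sqrt_atTop.comp (tlog.atTop_div_const (by norm_num))
  refine tendsto_atTop_mono' _ ?_ h1
  filter_upwards [h.small, tlog.eventually_ge_atTop 1] with n h2 h3
  have hθ := Path.theta_pos (W n)
  rw [Real.sqrt_le_left (by positivity)]
  rcases Nat.eq_zero_or_pos (W n) with h4 | h4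
  · rw [h4, theta_zero]
    nlinarith
  · have h5 := theta_sq (W n) h4
    have h6 : 4 * (W n : ℝ) * Path.theta (W n) ^ 2 ≤ 2 * Real.log n * Path.theta (W n) ^ 2 := by
      apply mul_le_mul_of_nonneg_right _ (sq_nonneg _)
      linarith
    have h7 : 1 ≤ 2 * Real.log n * Path.theta (W n) ^ 2 := h5.trans h6
    have h8 : (0 : ℝ) ≤ Real.log n / 2 := by linarith
    have h9 := mul_le_mul_of_nonneg_left h7 h8
    nlinarith

theorem sqrt_bound (h : Lev W) : ∃ c : ℕ, 1 ≤ c ∧ ∀ᶠ n : ℕ in atTop, W n ≤ c * W n.sqrt := by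
  obtain ⟨c, hc⟩ := h.dbl
  obtain ⟨m0, hm0⟩ := eventually_atTop.1 hc
  refine ⟨(c + 1) * (c + 1), by nlinarith, ?_⟩
  have hs : Tendsto Nat.sqrt atTop atTop := by
    refine tendsto_atTop_atTop.2 (fun b => ⟨b * b, fun a ha => ?_⟩)
    exact Nat.le_sqrt.2 ha
  filter_upwards [hs.eventually_ge_atTop (m0 + 2)] with n hn
  set r := n.sqrt with hr
  have h1 : n ≤ (r + 1) ^ 2 := by
    have := Nat.lt_succ_sqrt n
    rw [← hr] at this
    rw [pow_two]
    exact this.le
  have h2 : W n ≤ c * W (r + 1) := (h.mono h1).trans (hm0 (r + 1) (by omega))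
  have h3 : r + 1 ≤ r ^ 2 := by nlinarith
  have h4 : W (r + 1) ≤ c * W r := (h.mono h3).trans (hm0 r (by omega))
  calc W n ≤ c * W (r + 1) := h2
    _ ≤ c * (c * W r) := Nat.mul_le_mul_left _ h4
    _ ≤ (c + 1) * (c + 1) * W r := by nlinarith [Nat.zero_le (c * W r), Nat.zero_le (W r)]

theorem sqrt_atTop : Tendsto Nat.sqrt atTop atTop := by
  refine tendsto_atTop_atTop.2 (fun b => ⟨b * b, fun a ha => ?_⟩)
  exact Nat.le_sqrt.2 ha

/-- the level tends to infinity or is eventually constant -/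
theorem dicho (h : Lev W) : Tendsto W atTop atTop ∨ ∃ w, ∀ᶠ n in atTop, W n = w := by
  by_cases hb : ∃ B, ∀ n, W n ≤ B
  · right
    obtain ⟨B, hB⟩ := hb
    have hfin : (Set.range W).Finite := (Set.finite_Iic B).subset (by
      rintro _ ⟨n, rfl⟩; exact hB n)
    have hbdd : BddAbove (Set.range W) := hfin.bddAbove
    have hmem := Nat.sSup_mem (Set.range_nonempty W) hbdd
    obtain ⟨n0, hn0⟩ := hmem
    refine ⟨sSup (Set.range W), ?_⟩
    filter_upwards [eventually_ge_atTop n0] with n hn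
    apply le_antisymm
    · exact le_csSup hbdd ⟨n, rfl⟩
    · rw [← hn0]; exact h.mono hn
  · left
    push Not at hb
    refine tendsto_atTop_atTop.2 (fun b => ?_)
    obtain ⟨n, hn⟩ := hb b
    exact ⟨n, fun a ha => hn.le.trans (h.mono ha)⟩

theorem theta_sqrt (h : Lev W) :
    Tendsto (fun n : ℕ => Path.theta (W n) / Path.theta (W n.sqrt)) atTop (𝓝 1) := by
  rcases h.dicho with ht | ⟨w, hw⟩
  · obtain ⟨c, hc1, hc⟩ := h.sqrt_bound
    have h1 : Tendsto (fun n : ℕ => 1 - (c : ℝ) * Real.log 4 / Real.log ((W n.sqrt : ℕ) : ℝ))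
        atTop (𝓝 1) := by
      have h2 : Tendsto (fun n : ℕ => Real.log ((W n.sqrt : ℕ) : ℝ)) atTop atTop :=
        tlog.comp (ht.comp sqrt_atTop)
      have h3 := (tendsto_const_nhds (x := (c : ℝ) * Real.log 4) (f := atTop)).div_atTop h2
      simpa using h3.const_sub 1
    refine tendsto_of_tendsto_of_tendsto_of_le_of_le' h1 tendsto_const_nhds ?_ ?_
    · filter_upwards [hc, (ht.comp sqrt_atTop).eventually_ge_atTop 2] with n hn h2
      simp only [Function.comp] at h2
      have h3 := theta_ratio h2 (h.mono (Nat.sqrt_le_self n))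
        (show ((W n : ℕ) : ℝ) ≤ (c : ℝ) * (W n.sqrt : ℕ) by exact_mod_cast hn)
      rw [le_div_iff₀ (Path.theta_pos _), mul_comm]
      exact h3
    · refine Eventually.of_forall (fun n => ?_)
      rw [div_le_one (Path.theta_pos _)]
      exact theta_anti (h.mono (Nat.sqrt_le_self n))
  · refine tendsto_const_nhds.congr' ?_
    filter_upwards [hw, sqrt_atTop.eventually hw] with n h1 h2
    rw [h1, h2, div_self (Path.theta_pos _).ne']

theorem log_sqrt : Tendsto (fun n : ℕ => Real.log (n.sqrt : ℕ) / Real.log (n : ℝ)) atTop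
    (𝓝 (1 / 2)) := by
  have h1 : Tendsto (fun n : ℕ => 1 / 2 - 1 / Real.log (n : ℝ)) atTop (𝓝 (1 / 2)) := by
    have := ((tendsto_const_nhds (x := (1 : ℝ)) (f := atTop)).div_atTop tlog).const_sub (1 / 2)
    rwa [sub_zero] at this
  refine tendsto_of_tendsto_of_tendsto_of_le_of_le' h1 tendsto_const_nhds ?_ ?_
  · filter_upwards [eventually_ge_atTop 2] with n hn
    have hn' : (2 : ℝ) ≤ n := by exact_mod_cast hn
    have hl : 0 < Real.log (n : ℝ) := Real.log_pos (by linarith)
    set r := n.sqrt with hr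
    have hr1 : 1 ≤ r := Nat.le_sqrt.2 (by omega)
    have hr1' : (1 : ℝ) ≤ r := by exact_mod_cast hr1
    have h2 : (n : ℝ) ≤ ((r : ℝ) + 1) ^ 2 := by
      have := Nat.lt_succ_sqrt n
      rw [← hr] at this
      have h3 : (n : ℝ) < ((r + 1 : ℕ) : ℝ) * ((r + 1 : ℕ) : ℝ) := by exact_mod_cast this
      push_cast at h3
      nlinarith
    have h3 : Real.log n ≤ 2 * Real.log ((r : ℝ) + 1) := by
      have := Real.log_le_log (by linarith) h2
      rw [Real.log_pow] at this
      push_cast at this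
      linarith
    have h4 : Real.log ((r : ℝ) + 1) - Real.log r ≤ 1 := by
      rw [← Real.log_div (by linarith) (by linarith)]
      have := Real.log_le_sub_one_of_pos (show 0 < ((r : ℝ) + 1) / r by positivity)
      refine this.trans ?_
      have : ((r : ℝ) + 1) / r = 1 + 1 / r := by field_simp
      rw [this]
      have : 1 / (r : ℝ) ≤ 1 := by rw [div_le_one (by linarith)]; exact hr1'
      linarith
    rw [le_div_iff₀ hl]
    have : (1 / 2 - 1 / Real.log n) * Real.log n = Real.log n / 2 - 1 := by field_simp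
    rw [this]
    linarith
  · filter_upwards [eventually_ge_atTop 2] with n hn
    have hn' : (2 : ℝ) ≤ n := by exact_mod_cast hn
    have hl : 0 < Real.log (n : ℝ) := Real.log_pos (by linarith)
    set r := n.sqrt with hr
    have hr1 : 1 ≤ r := Nat.le_sqrt.2 (by omega)
    have hr1' : (1 : ℝ) ≤ r := by exact_mod_cast hr1
    have h2 : ((r : ℝ)) ^ 2 ≤ n := by
      have := Nat.sqrt_le' n
      rw [← hr] at this
      exact_mod_cast this
    have h3 := Real.log_le_log (by positivity) h2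
    rw [Real.log_pow] at h3
    push_cast at h3
    rw [div_le_iff₀ hl]
    linarith

end Lev

/-- the recursion along square roots -/
theorem rec_sqrt (s a b : ℕ → ℝ) (ha : Tendsto a atTop (𝓝 (1 / 2)))
    (hb : Tendsto b atTop (𝓝 (1 / 2)))
    (h : ∀ᶠ n : ℕ in atTop, s n = a n * s n.sqrt + b n) : Tendsto s atTop (𝓝 1) := by
  -- the distance to `1`
  set e : ℕ → ℝ := fun n => |s n - 1| with he
  set δ : ℕ → ℝ := fun n => |a n + b n - 1| with hδ
  have hδ0 : Tendsto δ atTop (𝓝 0) := by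
    have h1 := (ha.add hb).sub_const 1
    have h2 := h1.abs
    norm_num at h2
    exact h2
  have ha1 : ∀ᶠ n in atTop, |a n| ≤ 3 / 4 := by
    have := ha.abs.eventually (gt_mem_nhds (show |(1 / 2 : ℝ)| < 3 / 4 by norm_num [abs_of_pos]))
    exact this.mono (fun n hn => hn.le)
  have hrec : ∀ᶠ n : ℕ in atTop, e n ≤ 3 / 4 * e n.sqrt + δ n := by
    filter_upwards [h, ha1] with n h1 h2
    have e1 : s n - 1 = a n * (s n.sqrt - 1) + (a n + b n - 1) := by rw [h1]; ring
    change |s n - 1| ≤ 3 / 4 * |s n.sqrt - 1| + |a n + b n - 1|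
    rw [e1]
    refine (abs_add_le _ _).trans (add_le_add ?_ le_rfl)
    rw [abs_mul]
    exact mul_le_mul_of_nonneg_right h2 (abs_nonneg _)
  -- boundedness
  have hbdd : ∃ B, ∀ n, e n ≤ B := by
    have h1 : ∀ᶠ n : ℕ in atTop, e n ≤ 3 / 4 * e n.sqrt + 1 := by
      filter_upwards [hrec, hδ0.eventually (gt_mem_nhds zero_lt_one)] with n h1 h2
      linarith
    obtain ⟨n0, hn0⟩ := eventually_atTop.1 h1
    set B : ℝ := ∑ i ∈ Finset.range (n0 + 2), e i + 4 with hB
    have hs0 : 0 ≤ ∑ i ∈ Finset.range (n0 + 2), e i :=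
      Finset.sum_nonneg (fun i _ => abs_nonneg _)
    refine ⟨B, fun n => ?_⟩
    induction n using Nat.strong_induction_on with
    | _ n ih =>
      rcases Nat.lt_or_ge n (n0 + 2) with h2 | h2
      · have := Finset.single_le_sum (f := e) (fun i _ => abs_nonneg _)
          (Finset.mem_range.2 h2)
        linarith
      · have h3 := hn0 n (by omega)
        have h4 : n.sqrt < n := Nat.sqrt_lt_self (by omega)
        have h5 := ih n.sqrt h4
        linarith
  obtain ⟨B, hB⟩ := hbdd
  have hB0 : 0 ≤ B := (abs_nonneg _).trans (hB 0)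
  -- iteration
  have hiter : ∀ η : ℝ, 0 < η → ∀ k : ℕ, ∀ᶠ n : ℕ in atTop, e n ≤ (3 / 4) ^ k * B + 4 * η := by
    intro η hη k
    induction k with
    | zero =>
      refine Eventually.of_forall (fun n => ?_)
      have := hB n
      simp only [pow_zero, one_mul]
      linarith
    | succ k ih =>
      filter_upwards [hrec, Lev.sqrt_atTop.eventually ih, hδ0.eventually (gt_mem_nhds hη)]
        with n h1 h2 h3
      calc e n ≤ 3 / 4 * e n.sqrt + δ n := h1
        _ ≤ 3 / 4 * ((3 / 4) ^ k * B + 4 * η) + η := by linarith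
        _ = (3 / 4) ^ (k + 1) * B + 4 * η := by ring
  have he0 : Tendsto e atTop (𝓝 0) := by
    rw [Metric.tendsto_atTop]
    intro ε hε
    have h1 : Tendsto (fun k : ℕ => (3 / 4 : ℝ) ^ k * B) atTop (𝓝 (0 * B)) :=
      (tendsto_pow_atTop_nhds_zero_of_lt_one (by norm_num) (by norm_num)).mul_const B
    rw [zero_mul] at h1
    obtain ⟨k, hk⟩ := (h1.eventually (gt_mem_nhds (show 0 < ε / 2 by linarith))).exists
    obtain ⟨n0, hn0⟩ := eventually_atTop.1 (hiter (ε / 8) (by linarith) k)
    refine ⟨n0, fun n hn => ?_⟩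
    have h2 := hn0 n hn
    rw [Real.dist_eq, sub_zero, abs_of_nonneg (abs_nonneg _)]
    change e n < ε
    linarith
  rw [tendsto_iff_dist_tendsto_zero]
  exact he0

end Pool.Agent.Lib.MP_3efbeb_nt.GL
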