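import Pool.Agent.Lib.MP_3efbeb_nt.GL.Tup

set_option autoImplicit false
set_option linter.unusedSectionVars false
set_option linter.unusedVariables false

open Filter Topology Asymptotics

namespace Pool.Agent.Lib.MP_3efbeb_nt.GL

open Pool.Agent.Lib.MP_926cc3_nt.RS Pool.Agent.Lib.MP_3efbeb_nt.RST

variable {W : ℕ → ℕ}

/-- `4 ^ W` is small compared with `x / log ^ k x` -/
theorem pow_o (hW : Lev W) (k c : ℕ) :
    (fun x : ℕ => (4 : ℝ) ^ W (x + c)) =o[atTop]
      (fun x : ℕ => (x : ℝ) / Real.log (x : ℝ) ^ k) := by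
  have hb : 0 < 1 - Real.log 2 := by have := Real.log_two_lt_d9; linarith
  have h1 : Tendsto (fun t : ℝ => t ^ k / Real.exp ((1 - Real.log 2) * t)) atTop (𝓝 0) :=
    (isLittleO_pow_exp_pos_mul_atTop k hb).tendsto_div_nhds_zero
  have hxc : Tendsto (fun x : ℕ => x + c) atTop atTop := tendsto_add_atTop_nat c
  have h2 := (h1.comp (tlog.comp hxc)).const_mul 2
  rw [mul_zero] at h2
  rw [isLittleO_iff_tendsto']
  · refine squeeze_zero' ?_ ?_ h2
    · filter_upwards [eventually_ge_atTop 1] with x hx
      have := Real.log_natCast_nonneg x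
      positivity
    · filter_upwards [hxc.eventually hW.small, eventually_ge_atTop (c + 2)] with x h3 hx
      have hx' : (2 : ℝ) ≤ x := by exact_mod_cast (by omega : 2 ≤ x)
      have hxc' : (c : ℝ) ≤ x := by exact_mod_cast (by omega : c ≤ x)
      have hc0 : (0 : ℝ) ≤ c := Nat.cast_nonneg _
      have hl : 0 < Real.log (x : ℝ) := Real.log_pos (by linarith)
      set y : ℝ := ((x + c : ℕ) : ℝ) with hy
      have hy' : y = x + c := by rw [hy]; push_cast; ring
      have hy0 : 0 < y := by linarith
      have hlxy : Real.log (x : ℝ) ≤ Real.log y := Real.log_le_log (by linarith) (by linarith)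
      have h4 : (4 : ℝ) ^ W (x + c) ≤ Real.exp (Real.log 2 * Real.log y) := by
        have h5 : (4 : ℝ) ^ W (x + c) = Real.exp (Real.log 2 * (2 * (W (x + c) : ℝ))) := by
          rw [show Real.log 2 * (2 * (W (x + c) : ℝ)) = (W (x + c) : ℝ) * (2 * Real.log 2) by ring,
            Real.exp_nat_mul]
          congr 1
          rw [show 2 * Real.log 2 = Real.log 2 + Real.log 2 by ring, Real.exp_add,
            Real.exp_log (by norm_num)]
          norm_num
        rw [h5]
        apply Real.exp_le_exp.2
        exact mul_le_mul_of_nonneg_left h3 (Real.log_nonneg (by norm_num))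
      have h6 : Real.exp ((1 - Real.log 2) * Real.log y) =
          y / Real.exp (Real.log 2 * Real.log y) := by
        rw [show (1 - Real.log 2) * Real.log y = Real.log y - Real.log 2 * Real.log y by ring,
          Real.exp_sub, Real.exp_log hy0]
      simp only [Function.comp]
      rw [← hy, h6]
      have e1 : 2 * (Real.log y ^ k / (y / Real.exp (Real.log 2 * Real.log y))) =
          (Real.exp (Real.log 2 * Real.log y) * Real.log y ^ k) / (y / 2) := by
        have := Real.exp_pos (Real.log 2 * Real.log y)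
        field_simp
      have e2 : (4 : ℝ) ^ W (x + c) / ((x : ℝ) / Real.log (x : ℝ) ^ k) =
          ((4 : ℝ) ^ W (x + c) * Real.log (x : ℝ) ^ k) / x := by
        field_simp
      rw [e1, e2]
      apply div_le_div₀
      · have := Real.log_nonneg (show 1 ≤ y by linarith)
        positivity
      · apply mul_le_mul h4 (pow_le_pow_left₀ hl.le hlxy k) (by positivity) (by positivity)
      · linarith
      · linarith
  · filter_upwards [eventually_ge_atTop 2] with x hx h0
    exfalso
    have hx' : (2 : ℝ) ≤ x := by exact_mod_cast hx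
    have hl : 0 < Real.log (x : ℝ) := Real.log_pos (by linarith)
    have : 0 < (x : ℝ) / Real.log (x : ℝ) ^ k := by positivity
    linarith

theorem const_o (k : ℕ) (c : ℝ) : (fun _ : ℕ => c) =o[atTop]
    (fun x : ℕ => (x : ℝ) / Real.log (x : ℝ) ^ k) := by
  rw [isLittleO_const_left]
  exact Or.inr (tendsto_norm_atTop_atTop.comp (div_log_atTop k))

/-- **Theorem.** The deterministic sum along a constellation. -/
theorem tup_det (hW : Lev W) (H : Finset ℕ) (hne : H.Nonempty) (S : ℝ) (hS : 0 < S)
    (hlim : Tendsto (fun n => sing (W n) H) atTop (𝓝 S)) :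
    (fun x => ∑ n ∈ Finset.range x, ∏ h ∈ H, gW W (n + 1 + h)) ~[atTop]
      (fun x : ℕ => S * ((x : ℝ) / Real.log (x : ℝ) ^ H.card)) := by
  set k := H.card with hk
  obtain ⟨B, hB0, hB⟩ := den_bdd hW
  obtain ⟨M, hM⟩ : ∃ M, ∀ h ∈ H, h ≤ M := ⟨H.sup id, fun h hh => Finset.le_sup (f := id) hh⟩
  set L : ℕ → ℝ := fun n => ∏ h ∈ H, 1 / Real.log ((n + 1 + h : ℕ) : ℝ) with hL
  set tH : ℕ → ℝ := fun n => ∏ h ∈ H, gW W (n + 1 + h) with htH
  set T : ℕ → ℝ := fun n => chi (W (n + 1)) H (n + 1) * bw H (W (n + 1)) n with hT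
  set F : ℕ → ℝ := fun x => S * ((x : ℝ) / Real.log (x : ℝ) ^ k) with hF
  -- the main term
  have hLe : L ~[atTop] (ilog k) := by
    have h2 : ∀ i ∈ H, (fun n : ℕ => Real.log (((n + 1 + i : ℕ) : ℝ))) ~[atTop]
        (fun n : ℕ => Real.log ((n : ℝ) + 2)) := by
      intro i _
      have h3 := (log_shift ((1 : ℝ) + i)).trans (log_shift 2).symm
      refine h3.congr_left (Eventually.of_forall (fun n => ?_))
      simp only
      congr 1
      push_cast; ring
    have h3 := (IsEquivalent.finsetProd h2).inv
    refine (h3.congr_left ?_).congr_right ?_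
    · refine Eventually.of_forall (fun n => ?_)
      rw [hL]
      simp only [Pi.inv_apply, one_div, Finset.prod_inv_distrib]
    · refine Eventually.of_forall (fun n => ?_)
      simp only [Pi.inv_apply, Finset.prod_const]
      unfold ilog
      rw [one_div]
  have hsing : (fun n => sing (W (n + 1)) H) ~[atTop] (fun _ => S) :=
    (isEquivalent_const_iff_tendsto hS.ne').2 (hlim.comp (tendsto_add_atTop_nat 1))
  have hmain : (fun x => ∑ n ∈ Finset.range x, sing (W (n + 1)) H * L n) ~[atTop] F := by
    have h1 : (fun n => sing (W (n + 1)) H * L n) ~[atTop] (fun n => S * ilog k n) :=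
      hsing.mul hLe
    have hdiv : Tendsto (fun x => ∑ n ∈ Finset.range x, S * ilog k n) atTop atTop := by
      have := (ilog_div k).const_mul_atTop hS
      refine this.congr (fun x => ?_)
      rw [Finset.mul_sum]
    have h2 := equiv_sum h1 (fun n => mul_nonneg hS.le (ilog_pos _ _).le) hdiv
    have h3 := (IsEquivalent.refl (u := fun _ : ℕ => S) (l := atTop)).mul (sum_ilog k)
    refine (h2.congr_right (Eventually.of_forall (fun x => ?_))).trans h3
    simp only [Pi.mul_apply]
    rw [Finset.mul_sum]
  -- a large index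
  obtain ⟨n1, hn1⟩ := eventually_atTop.1 hW.lt_self
  set n0 := n1 + 1 with hn0
  have hlt : ∀ n, n0 ≤ n → W (n + 1) < n + 1 := fun n hn => by
    have := hn1 (n + 1) (by omega)
    omega
  have hBk : 0 ≤ B ^ k := pow_nonneg hB0 _
  -- first error
  have herr1 : (fun x => ∑ n ∈ Finset.range x, (tH n - T n)) =o[atTop]
      (fun x : ℕ => (x : ℝ) / Real.log (x : ℝ) ^ k) := by
    have hb : ∀ x, n0 ≤ x → |∑ n ∈ Finset.range x, (tH n - T n)| ≤
        ∑ n ∈ Finset.range n0, |tH n - T n| +
          B ^ k * ∑ j ∈ Finset.range M, (4 : ℝ) ^ W (x + (1 + j)) := by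
      intro x hx
      rw [← Finset.sum_range_add_sum_Ico _ hx]
      refine (abs_add_le _ _).trans (add_le_add (Finset.abs_sum_le_sum_abs _ _) ?_)
      refine (Finset.abs_sum_le_sum_abs _ _).trans ?_
      have h1 : ∀ n ∈ Finset.Ico n0 x, |tH n - T n| ≤
          B ^ k * ((W (n + 1 + M) : ℝ) - W (n + 1)) := by
        intro n hn
        rw [Finset.mem_Ico] at hn
        exact tH_bad hB0 hB hM hW.mono (by omega) (hlt n hn.1)
      refine (Finset.sum_le_sum h1).trans ?_
      rw [← Finset.mul_sum]
      apply mul_le_mul_of_nonneg_left _ hBk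
      have h2 : ∑ n ∈ Finset.Ico n0 x, ((W (n + 1 + M) : ℝ) - W (n + 1)) ≤
          ∑ n ∈ Finset.range x, ((W (n + 1 + M) : ℝ) - W (n + 1)) := by
        rw [Finset.range_eq_Ico]
        apply Finset.sum_le_sum_of_subset_of_nonneg
        · exact Finset.Ico_subset_Ico_left (Nat.zero_le _)
        · intro n _ _
          have : (W (n + 1) : ℝ) ≤ W (n + 1 + M) := by exact_mod_cast hW.mono (by omega)
          linarith
      refine h2.trans ?_
      rw [Finset.sum_sub_distrib]
      have h3 := jumps W x M
      have h4 : ∑ j ∈ Finset.range M, (W (x + 1 + j) : ℝ) ≤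
          ∑ j ∈ Finset.range M, (4 : ℝ) ^ W (x + (1 + j)) := by
        apply Finset.sum_le_sum
        intro j _
        rw [show x + 1 + j = x + (1 + j) by ring]
        have : W (x + (1 + j)) ≤ 4 ^ W (x + (1 + j)) := (Nat.lt_pow_self (by norm_num)).le
        exact_mod_cast this
      linarith
    have hs : (fun x : ℕ => ∑ n ∈ Finset.range n0, |tH n - T n| +
        B ^ k * ∑ j ∈ Finset.range M, (4 : ℝ) ^ W (x + (1 + j))) =o[atTop]
        (fun x : ℕ => (x : ℝ) / Real.log (x : ℝ) ^ k) := by
      apply (const_o k _).add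
      apply IsLittleO.const_mul_left
      have h1 := IsLittleO.sum (s := Finset.range M) (fun j _ => pow_o hW k (1 + j))
      refine h1.congr_left (fun x => ?_)
      rw [Finset.sum_apply]
    refine IsBigO.trans_isLittleO ?_ hs
    apply IsBigO.of_bound 1
    filter_upwards [eventually_ge_atTop n0] with x hx
    rw [Real.norm_eq_abs, one_mul, Real.norm_eq_abs]
    exact (hb x hx).trans (le_abs_self _)
  -- second error
  have herr2 : (fun x => ∑ n ∈ Finset.range x, (T n - sing (W (n + 1)) H * L n)) =o[atTop]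
      (fun x : ℕ => (x : ℝ) / Real.log (x : ℝ) ^ k) := by
    have hb : ∀ x, n0 ≤ x → |∑ n ∈ Finset.range x, (T n - sing (W (n + 1)) H * L n)| ≤
        ∑ n ∈ Finset.range n0, |T n - sing (W (n + 1)) H * L n| +
          B ^ k * (2 * 4 ^ W (x + 1)) := by
      intro x hx
      rw [← Finset.sum_range_add_sum_Ico _ hx]
      refine (abs_add_le _ _).trans (add_le_add (Finset.abs_sum_le_sum_abs _ _) ?_)
      exact stretch_sum hB0 hB H hW.mono (by omega) x
    have hs : (fun x : ℕ => ∑ n ∈ Finset.range n0, |T n - sing (W (n + 1)) H * L n| +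
        B ^ k * (2 * (4 : ℝ) ^ W (x + 1))) =o[atTop]
        (fun x : ℕ => (x : ℝ) / Real.log (x : ℝ) ^ k) := by
      apply (const_o k _).add
      apply IsLittleO.const_mul_left
      apply IsLittleO.const_mul_left
      exact pow_o hW k 1
    refine IsBigO.trans_isLittleO ?_ hs
    apply IsBigO.of_bound 1
    filter_upwards [eventually_ge_atTop n0] with x hx
    rw [Real.norm_eq_abs, one_mul, Real.norm_eq_abs]
    exact (hb x hx).trans (le_abs_self _)
  -- conclusion
  have herr : (fun x => ∑ n ∈ Finset.range x, (tH n - T n) +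
      ∑ n ∈ Finset.range x, (T n - sing (W (n + 1)) H * L n)) =o[atTop] F :=
    (isLittleO_const_mul_right_iff hS.ne').2 (herr1.add herr2)
  have hfin := hmain.add_isLittleO herr
  refine hfin.congr_left (Eventually.of_forall (fun x => ?_))
  simp only [Pi.add_apply]
  rw [← Finset.sum_add_distrib, ← Finset.sum_add_distrib]
  exact Finset.sum_congr rfl (fun n _ => by ring)

end Pool.Agent.Lib.MP_3efbeb_nt.GL
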