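import Pool.Agent.Lib.MP_3efbeb_nt.GL.Asy

set_option autoImplicit false
set_option linter.unusedSectionVars false
set_option linter.unusedVariables false

open Filter Topology Asymptotics

namespace Pool.Agent.Lib.MP_3efbeb_nt.GL

open Pool.Agent.Lib.MP_926cc3_nt.RS Pool.Agent.Lib.MP_3efbeb_nt.RST

/-- elementary properties of the reciprocal sieving product -/
structure EBase (E : ℕ → ℝ) : Prop where
  one_le : ∀ n, 1 ≤ E n
  mono : Monotone E
  anti : ∀ m n, 1 ≤ m → m ≤ n → E n * m ≤ E m * n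
  zero : E 0 = 1
  one : E 1 = 1

/-- the compensator -/
noncomputable def PP (W : ℕ → ℕ) (E : ℕ → ℝ) (n : ℕ) : ℝ :=
  ∑ i ∈ Finset.range n, rho W (i + 1) * E (min (W (i + 1)) i) / i

/-- the local slope -/
noncomputable def kap (W : ℕ → ℕ) (E : ℕ → ℝ) (m : ℕ) : ℝ := Path.theta (W m) * E (W m)

/-- its integral -/
noncomputable def SS (W : ℕ → ℕ) (E : ℕ → ℝ) (n : ℕ) : ℝ :=
  ∑ i ∈ Finset.range n, kap W E (i + 1) / i

variable {W : ℕ → ℕ} {E : ℕ → ℝ}

theorem rough_iff {n : ℕ} (h2 : 2 ≤ n) (hW : W n < n) :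
    Rough W n ↔ (primorial (W n)).Coprime n := by
  unfold Rough
  rw [primorial, Nat.coprime_prod_left_iff]
  constructor
  · rintro ⟨-, h⟩ p hp
    rw [Finset.mem_filter, Finset.mem_range] at hp
    rw [hp.2.coprime_iff_not_dvd]
    exact h p hp.2 (by omega) (by omega)
  · intro h
    refine ⟨h2, fun p hp hpW _ => ?_⟩
    rw [← hp.coprime_iff_not_dvd]
    exact h p (by rw [Finset.mem_filter, Finset.mem_range]; exact ⟨by omega, hp⟩)

theorem rho_eq {n : ℕ} (h2 : 2 ≤ n) (hW : W n < n) : rho W n = cop (W n) n := by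
  unfold rho cop
  simp only [rough_iff h2 hW]

namespace EBase

theorem pos (h : EBase E) (n : ℕ) : 0 < E n := lt_of_lt_of_le zero_lt_one (h.one_le n)

theorem le_succ (h : EBase E) (n : ℕ) : E n ≤ (n : ℝ) + 1 := by
  rcases Nat.eq_zero_or_pos n with h0 | h0
  · rw [h0, h.zero]; simp
  · have := h.anti 1 n le_rfl h0
    rw [h.one] at this
    simp at this
    linarith

/-- crude comparison -/
theorem crude (h : EBase E) {v w c : ℕ} (hc : 1 ≤ c) (hw : w ≤ c * v) : E w ≤ c * E v := by
  have hc' : (1 : ℝ) ≤ c := by exact_mod_cast hc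
  have hp := h.pos v
  rcases Nat.lt_or_ge v w with hlt | hge
  · have hv : 1 ≤ v := by
      rcases Nat.eq_zero_or_pos v with h0 | h0
      · rw [h0] at hw; omega
      · exact h0
    have hv' : (0 : ℝ) < v := by exact_mod_cast hv
    have h1 := h.anti v w hv hlt.le
    have h2 : (w : ℝ) ≤ c * v := by exact_mod_cast hw
    have h3 : E v * w ≤ E v * (c * v) := mul_le_mul_of_nonneg_left h2 hp.le
    have h4 : E w * v ≤ (c * E v) * v := by linarith
    exact le_of_mul_le_mul_right h4 hv'
  · have h1 := h.mono hge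
    nlinarith

theorem kap_low (h : EBase E) (hW : Monotone W) {r i n : ℕ} (h1 : r ≤ i) (h2 : i < n) :
    Path.theta (W n) * E (W r) ≤ kap W E (i + 1) := by
  unfold kap
  exact mul_le_mul (theta_anti (hW (by omega))) (h.mono (hW (by omega))) (h.pos _).le
    (Path.theta_pos _).le

theorem kap_up (h : EBase E) (hW : Monotone W) {r i n : ℕ} (h1 : r ≤ i) (h2 : i < n) :
    kap W E (i + 1) ≤ Path.theta (W r) * E (W n) := by
  unfold kap
  exact mul_le_mul (theta_anti (hW (by omega))) (h.mono (hW (by omega))) (h.pos _).le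
    (Path.theta_pos _).le

theorem kap_pos (h : EBase E) (m : ℕ) : 0 < kap W E m := mul_pos (Path.theta_pos _) (h.pos _)

theorem SS_mono (h : EBase E) : Monotone (SS W E) := by
  intro a b hab
  unfold SS
  apply Finset.sum_le_sum_of_subset_of_nonneg (Finset.range_mono hab)
  intro i _ _
  exact div_nonneg (h.kap_pos _).le (Nat.cast_nonneg _)

theorem diff_low (h : EBase E) (hW : Monotone W) {r n : ℕ} (hr : 1 ≤ r) (hrn : r ≤ n) :
    Path.theta (W n) * E (W r) * (Real.log n - Real.log r) ≤ SS W E n - SS W E r := by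
  unfold SS
  rw [← Finset.sum_Ico_eq_sub _ hrn]
  have h0 : 0 ≤ Path.theta (W n) * E (W r) := mul_nonneg (Path.theta_pos _).le (h.pos _).le
  calc Path.theta (W n) * E (W r) * (Real.log n - Real.log r)
      ≤ Path.theta (W n) * E (W r) * ∑ i ∈ Finset.Ico r n, 1 / (i : ℝ) :=
        mul_le_mul_of_nonneg_left (harm_low hr hrn) h0
    _ = ∑ i ∈ Finset.Ico r n, Path.theta (W n) * E (W r) * (1 / (i : ℝ)) := Finset.mul_sum _ _ _
    _ ≤ ∑ i ∈ Finset.Ico r n, kap W E (i + 1) / i := by
      apply Finset.sum_le_sum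
      intro i hi
      rw [Finset.mem_Ico] at hi
      rw [div_eq_mul_one_div (kap W E (i + 1))]
      exact mul_le_mul_of_nonneg_right (h.kap_low hW hi.1 hi.2) (by positivity)

theorem diff_up (h : EBase E) (hW : Monotone W) {r n : ℕ} (hr : 1 ≤ r) (hrn : r ≤ n) :
    SS W E n - SS W E r ≤ Path.theta (W r) * E (W n) * (Real.log n - Real.log r + 1 / r) := by
  unfold SS
  rw [← Finset.sum_Ico_eq_sub _ hrn]
  have h0 : 0 ≤ Path.theta (W r) * E (W n) := mul_nonneg (Path.theta_pos _).le (h.pos _).le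
  have h1 := harm_up hr hrn
  have h2 : (0 : ℝ) ≤ 1 / n := by positivity
  calc ∑ i ∈ Finset.Ico r n, kap W E (i + 1) / i
      ≤ ∑ i ∈ Finset.Ico r n, Path.theta (W r) * E (W n) * (1 / (i : ℝ)) := by
        apply Finset.sum_le_sum
        intro i hi
        rw [Finset.mem_Ico] at hi
        rw [div_eq_mul_one_div (kap W E (i + 1))]
        exact mul_le_mul_of_nonneg_right (h.kap_up hW hi.1 hi.2) (by positivity)
    _ = Path.theta (W r) * E (W n) * ∑ i ∈ Finset.Ico r n, 1 / (i : ℝ) :=
        (Finset.mul_sum _ _ _).symm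
    _ ≤ Path.theta (W r) * E (W n) * (Real.log n - Real.log r + 1 / r) :=
        mul_le_mul_of_nonneg_left (by linarith) h0

theorem SS_atTop (h : EBase E) (hW : Lev W) : Tendsto (SS W E) atTop atTop := by
  refine tendsto_atTop_mono' _ ?_ hW.u_atTop
  filter_upwards [eventually_ge_atTop 1] with n hn
  have h1 := h.diff_low hW.mono (le_refl 1) hn
  have h2 : 0 ≤ SS W E 1 := by
    unfold SS
    exact Finset.sum_nonneg (fun i _ => div_nonneg (h.kap_pos _).le (Nat.cast_nonneg _))
  have h3 := h.one_le (W 1)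
  have h4 : 0 ≤ Path.theta (W n) * Real.log n :=
    mul_nonneg (Path.theta_pos _).le (Real.log_natCast_nonneg n)
  simp only [Nat.cast_one, Real.log_one, sub_zero] at h1
  nlinarith

/-- the compensator and the integral of the slope differ by a bounded amount -/
theorem PS (h : EBase E) (hW : Lev W) : ∃ C, ∀ n, |PP W E n - SS W E n| ≤ C := by
  obtain ⟨n1, hn1⟩ := eventually_atTop.1 (hW.small.and hW.lt_self)
  set n0 := n1 + 2 with hn0
  set D : ℕ → ℝ := fun i => rho W (i + 1) * E (min (W (i + 1)) i) / i - kap W E (i + 1) / i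
    with hD
  set q : ℝ := 4 * Real.exp (-2) with hq
  have hq0 : 0 ≤ q := by positivity
  have hq1 : q < 1 := by
    have h1 : Real.exp 2 = Real.exp 1 * Real.exp 1 := by rw [← Real.exp_add]; norm_num
    have h2 := Real.exp_one_gt_two
    rw [hq, Real.exp_neg, ← div_eq_mul_inv, div_lt_one (Real.exp_pos _), h1]
    nlinarith
  set E' : ℕ → ℝ := fun w => 2 * (((w : ℝ) + 1) * q ^ w) with hE'
  have hE'0 : ∀ w, 0 ≤ E' w := fun w => by rw [hE']; positivity
  have hsum : Summable E' := by
    have h1 : Summable (fun w : ℕ => (w : ℝ) ^ 1 * q ^ w) :=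
      summable_pow_mul_geometric_of_norm_lt_one 1 (by rw [Real.norm_eq_abs, abs_of_nonneg hq0]; exact hq1)
    have h2 : Summable (fun w : ℕ => q ^ w) := summable_geometric_of_lt_one hq0 hq1
    have h3 := (h1.add h2).mul_left 2
    refine h3.congr (fun w => ?_)
    rw [hE']; ring
  -- the terms for large `i`
  have hterm : ∀ i, n0 ≤ i → D i = (cop (W (i + 1)) (i + 1) - Path.theta (W (i + 1))) *
      ((1 / (i : ℝ)) * E (W (i + 1))) := by
    intro i hi
    obtain ⟨-, h2⟩ := hn1 (i + 1) (by omega)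
    rw [hD]
    simp only
    rw [rho_eq (by omega) (by omega), min_eq_left (show W (i + 1) ≤ i by omega), kap]
    ring
  have hlarge : ∀ n, |∑ i ∈ Finset.Ico n0 n, D i| ≤ ∑' w, E' w := by
    intro n
    have e1 : ∑ i ∈ Finset.Ico n0 n, D i = ∑ i ∈ Finset.Ico n0 n,
        (fun w i => (cop w (i + 1) - Path.theta w) * ((1 / (i : ℝ)) * E w)) (W (i + 1)) i := by
      apply Finset.sum_congr rfl
      intro i hi
      exact hterm i (Finset.mem_Ico.1 hi).1
    rw [e1]
    refine (stretch (fun i => W (i + 1)) (fun a b hab => hW.mono (by omega))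
      (fun w i => (cop w (i + 1) - Path.theta w) * ((1 / (i : ℝ)) * E w)) E' hE'0 n0 n ?_).trans
      (hsum.sum_le_tsum _ (fun w _ => hE'0 w))
    intro w a b ha hab hbn hc
    have ha1 : 1 ≤ a := by omega
    have ha' : (1 : ℝ) ≤ a := by exact_mod_cast ha1
    have h2 := abel (fun i => cop w (i + 1) - Path.theta w) (fun i => (1 / (i : ℝ)) * E w)
      (primorial w) a (fun i hi => by
        have hi1 : (0 : ℝ) < i := by exact_mod_cast (by omega : 0 < i)
        apply mul_le_mul_of_nonneg_right _ (h.pos w).le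
        apply one_div_le_one_div_of_le hi1
        push_cast; linarith)
      (fun i hi => mul_nonneg (by positivity) (h.pos w).le)
      (fun n hn => by
        rw [Finset.sum_sub_distrib, Finset.sum_Ico_add' (fun i => cop w i) a n 1]
        have h3 := Path.cop_count w (a + 1) (n - a)
        rw [show a + 1 + (n - a) = n + 1 by omega] at h3
        simp only [Finset.sum_const, Nat.card_Ico, nsmul_eq_mul]
        rw [mul_comm ((n - a : ℕ) : ℝ)]
        exact h3) hab.le
    refine h2.trans ?_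
    obtain ⟨h3, -⟩ := hn1 (a + 1) (by omega)
    have h4 : W (a + 1) = w := hc a le_rfl hab
    rw [h4] at h3
    have h5 : Real.exp (2 * (w : ℝ)) ≤ 2 * a := by
      have h6 := Real.exp_le_exp.2 h3
      rw [Real.exp_log (by positivity)] at h6
      push_cast at h6
      linarith
    have h6 : 1 / (a : ℝ) ≤ 2 * Real.exp (-2) ^ w := by
      rw [← Real.exp_nat_mul, show (w : ℝ) * -2 = -(2 * w) by ring, Real.exp_neg]
      rw [div_le_iff₀ (by linarith)]
      have h7 := Real.exp_pos (2 * (w : ℝ))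
      have h8 : 2 * (Real.exp (2 * (w : ℝ)))⁻¹ * a = (2 * a) / Real.exp (2 * (w : ℝ)) := by
        field_simp
      rw [h8, le_div_iff₀ h7]
      linarith
    have h7 : (primorial w : ℝ) ≤ 4 ^ w := by exact_mod_cast primorial_le_four_pow w
    have h8 := h.le_succ w
    calc (primorial w : ℝ) * (1 / (a : ℝ) * E w)
        ≤ 4 ^ w * (2 * Real.exp (-2) ^ w * ((w : ℝ) + 1)) := by
          have := (h.pos w).le
          gcongr
      _ = E' w := by rw [hE', hq]; simp only; rw [mul_pow]; ring
  refine ⟨∑ i ∈ Finset.range n0, |D i| + ∑' w, E' w, fun n => ?_⟩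
  have e0 : PP W E n - SS W E n = ∑ i ∈ Finset.range n, D i := by
    unfold PP SS
    rw [← Finset.sum_sub_distrib]
  rw [e0]
  have ht0 : 0 ≤ ∑' w, E' w := tsum_nonneg hE'0
  rcases Nat.lt_or_ge n n0 with h1 | h1
  · have h2 : ∑ i ∈ Finset.range n, |D i| ≤ ∑ i ∈ Finset.range n0, |D i| :=
      Finset.sum_le_sum_of_subset_of_nonneg (Finset.range_mono h1.le) (fun _ _ _ => abs_nonneg _)
    have h3 := Finset.abs_sum_le_sum_abs D (Finset.range n)
    linarith
  · rw [← Finset.sum_range_add_sum_Ico _ h1]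
    refine (abs_add_le _ _).trans (add_le_add (Finset.abs_sum_le_sum_abs _ _) (hlarge n))

theorem PP_atTop (h : EBase E) (hW : Lev W) : Tendsto (PP W E) atTop atTop := by
  obtain ⟨C, hC⟩ := h.PS hW
  have h1 : Tendsto (fun n => SS W E n + -C) atTop atTop :=
    tendsto_atTop_add_const_right _ _ (h.SS_atTop hW)
  refine tendsto_atTop_mono (fun n => ?_) h1
  have := (abs_le.1 (hC n)).1
  linarith

/-- `E` is asymptotic to the integral of its slope -/
theorem E_SS (h : EBase E) (hW : Lev W) (hE : E ~[atTop] PP W E) : E ~[atTop] SS W E := by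
  refine hE.trans ?_
  obtain ⟨C, hC⟩ := h.PS hW
  have h1 : (fun n => PP W E n - SS W E n) =O[atTop] (fun _ => (1 : ℝ)) :=
    isBigO_iff.2 ⟨C, Eventually.of_forall (fun n => by
      rw [Real.norm_eq_abs, norm_one, mul_one]; exact hC n)⟩
  have h2 : (fun _ : ℕ => (1 : ℝ)) =o[atTop] SS W E := by
    rw [isLittleO_const_left]
    exact Or.inr (tendsto_norm_atTop_atTop.comp (h.SS_atTop hW))
  exact h1.trans_isLittleO h2

end EBase

end Pool.Agent.Lib.MP_3efbeb_nt.GL
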