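import Pool.Agent.Lib.MP_3efbeb_nt.GL.EAsy

set_option autoImplicit false
set_option linter.unusedSectionVars false
set_option linter.unusedVariables false

open Filter Topology Asymptotics

namespace Pool.Agent.Lib.MP_3efbeb_nt.GL

open Pool.Agent.Lib.MP_926cc3_nt.RS Pool.Agent.Lib.MP_3efbeb_nt.RST

variable {W : ℕ → ℕ} {E : ℕ → ℝ}

namespace EBase

theorem SS_pos_ev (h : EBase E) (hW : Lev W) : ∀ᶠ n in atTop, 0 < SS W E n :=
  (h.SS_atTop hW).eventually_gt_atTop 0

theorem E_div_SS (h : EBase E) (hW : Lev W) (hE : E ~[atTop] PP W E) :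
    Tendsto (fun n => E n / SS W E n) atTop (𝓝 1) :=
  (isEquivalent_iff_tendsto_one ((h.SS_pos_ev hW).mono (fun n hn => hn.ne'))).1
    (h.E_SS hW hE)

/-- the reciprocal product at the level is small compared with the product -/
theorem ratio_small (h : EBase E) (hW : Lev W) (hE : E ~[atTop] PP W E) :
    Tendsto (fun n => E (W n) / E n) atTop (𝓝 0) := by
  obtain ⟨c, hc1, hc⟩ := hW.sqrt_bound
  have hc1' : (1 : ℝ) ≤ c := by exact_mod_cast hc1
  have h1 : Tendsto (fun n : ℕ => (4 * (c : ℝ)) / (Path.theta (W n) * Real.log (n : ℝ)))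
      atTop (𝓝 0) := tendsto_const_nhds.div_atTop hW.u_atTop
  refine squeeze_zero' (Eventually.of_forall (fun n => div_nonneg (h.pos _).le (h.pos _).le))
    ?_ h1
  have h2 := (h.E_div_SS hW hE).eventually (lt_mem_nhds (show (1 / 2 : ℝ) < 1 by norm_num))
  filter_upwards [h2, hc, h.SS_pos_ev hW, hW.u_atTop.eventually_gt_atTop 0,
    eventually_ge_atTop 2] with n h3 h4 h5 h6 hn
  set r := n.sqrt with hr
  have hr1 : 1 ≤ r := Nat.le_sqrt.2 (by omega)
  have hrn : r ≤ n := Nat.sqrt_le_self n
  have hr1' : (1 : ℝ) ≤ r := by exact_mod_cast hr1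
  have h7 : Real.log (r : ℝ) ≤ Real.log n / 2 := by
    have h8 : ((r : ℝ)) ^ 2 ≤ n := by
      have := Nat.sqrt_le' n
      rw [← hr] at this
      exact_mod_cast this
    have h9 := Real.log_le_log (by positivity) h8
    rw [Real.log_pow] at h9
    push_cast at h9
    linarith
  have h8 := h.diff_low hW.mono hr1 hrn
  have h9 := h.crude hc1 h4
  have h10 : 0 ≤ SS W E r := by
    unfold SS
    exact Finset.sum_nonneg (fun i _ => div_nonneg (h.kap_pos _).le (Nat.cast_nonneg _))
  have hθ := Path.theta_pos (W n)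
  have hEr := h.pos (W r)
  have h11 : Path.theta (W n) * E (W r) * (Real.log n / 2) ≤ SS W E n := by
    have h12 : Path.theta (W n) * E (W r) * (Real.log n / 2) ≤
        Path.theta (W n) * E (W r) * (Real.log n - Real.log r) :=
      mul_le_mul_of_nonneg_left (by linarith) (mul_pos hθ hEr).le
    linarith
  rw [lt_div_iff₀ h5] at h3
  rw [div_le_div_iff₀ (h.pos n) h6]
  have h13 : E (W n) * (Path.theta (W n) * Real.log n) ≤
      c * E (W r) * (Path.theta (W n) * Real.log n) := mul_le_mul_of_nonneg_right h9 h6.le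
  have h14 : c * E (W r) * (Path.theta (W n) * Real.log n) =
      2 * c * (Path.theta (W n) * E (W r) * (Real.log n / 2)) := by ring
  have h15 : 2 * c * (Path.theta (W n) * E (W r) * (Real.log n / 2)) ≤ 2 * c * SS W E n :=
    mul_le_mul_of_nonneg_left h11 (by linarith)
  nlinarith

theorem ratio_SS (h : EBase E) (hW : Lev W) (hE : E ~[atTop] PP W E) :
    Tendsto (fun n => E (W n) / SS W E n) atTop (𝓝 0) := by
  have h1 := (h.ratio_small hW hE).mul (h.E_div_SS hW hE)
  rw [zero_mul] at h1
  refine h1.congr (fun n => ?_)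
  have := (h.pos n).ne'
  field_simp

/-- multiplication of the argument by a constant -/
theorem mult (h : EBase E) (hW : Lev W) (hE : E ~[atTop] PP W E) {c : ℕ} (hc : 1 ≤ c) :
    Tendsto (fun v : ℕ => E (c * v) / E v) atTop (𝓝 1) := by
  have hc' : (1 : ℝ) ≤ c := by exact_mod_cast hc
  have hcv : Tendsto (fun v : ℕ => c * v) atTop atTop :=
    tendsto_id.const_mul_atTop' (by omega)
  have h1 : Tendsto (fun v : ℕ => SS W E v / SS W E (c * v)) atTop (𝓝 1) := by
    have h2 := ((h.ratio_SS hW hE).comp hcv).const_mul (Real.log c + 1)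
    rw [mul_zero] at h2
    have h3 := h2.const_sub 1
    rw [sub_zero] at h3
    refine tendsto_of_tendsto_of_tendsto_of_le_of_le' h3 tendsto_const_nhds ?_ ?_
    · filter_upwards [eventually_ge_atTop 1, hcv.eventually (h.SS_pos_ev hW)] with v hv h4
      have hv' : (1 : ℝ) ≤ v := by exact_mod_cast hv
      have hvc : v ≤ c * v := Nat.le_mul_of_pos_left v (by omega)
      have h5 := h.diff_up hW.mono hv hvc
      have e1 : Real.log ((c * v : ℕ) : ℝ) - Real.log v = Real.log c := by
        push_cast
        rw [Real.log_mul (by linarith) (by linarith)]; ring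
      rw [e1] at h5
      have hlc : 0 ≤ Real.log (c : ℝ) := Real.log_nonneg hc'
      have h6 : 1 / (v : ℝ) ≤ 1 := by rw [div_le_one (by linarith)]; exact hv'
      have h7 : Path.theta (W v) * E (W (c * v)) * (Real.log c + 1 / v) ≤
          E (W (c * v)) * (Real.log c + 1) := by
        have h8 : Path.theta (W v) * E (W (c * v)) ≤ 1 * E (W (c * v)) :=
          mul_le_mul_of_nonneg_right (Path.theta_le_one _) (h.pos _).le
        rw [one_mul] at h8
        have h9 : 0 ≤ 1 / (v : ℝ) := by positivity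
        exact mul_le_mul h8 (by linarith) (by linarith) (h.pos _).le
      simp only [Function.comp]
      rw [le_div_iff₀ h4]
      have e2 : (1 - (Real.log c + 1) * (E (W (c * v)) / SS W E (c * v))) * SS W E (c * v) =
          SS W E (c * v) - E (W (c * v)) * (Real.log c + 1) := by
        field_simp
      rw [e2]
      linarith
    · filter_upwards [hcv.eventually (h.SS_pos_ev hW)] with v h4
      rw [div_le_one h4]
      exact h.SS_mono (Nat.le_mul_of_pos_left v (by omega))
  have h2 := (h.E_div_SS hW hE)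
  have h3 := ((h2.comp hcv).div h1 one_ne_zero).div h2 one_ne_zero
  simp only [div_one] at h3
  refine h3.congr' ?_
  filter_upwards [hcv.eventually (h.SS_pos_ev hW), h.SS_pos_ev hW] with v h4 h5
  have h6 := (h.pos v).ne'
  simp only [Pi.div_apply, Function.comp]
  field_simp

theorem E_sqrt (h : EBase E) (hW : Lev W) (hE : E ~[atTop] PP W E) :
    Tendsto (fun n : ℕ => E (W n) / E (W n.sqrt)) atTop (𝓝 1) := by
  rcases hW.dicho with ht | ⟨w, hw⟩
  · obtain ⟨c, hc1, hc⟩ := hW.sqrt_bound
    have h1 := (h.mult hW hE hc1).comp (ht.comp Lev.sqrt_atTop)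
    refine tendsto_of_tendsto_of_tendsto_of_le_of_le' tendsto_const_nhds h1 ?_ ?_
    · refine Eventually.of_forall (fun n => ?_)
      rw [one_le_div (h.pos _)]
      exact h.mono (hW.mono (Nat.sqrt_le_self n))
    · filter_upwards [hc] with n hn
      simp only [Function.comp]
      exact div_le_div_of_nonneg_right (h.mono hn) (h.pos _).le
  · refine tendsto_const_nhds.congr' ?_
    filter_upwards [hw, Lev.sqrt_atTop.eventually hw] with n h1 h2
    rw [h1, h2, div_self (h.pos _).ne']

theorem s_lim (h : EBase E) (hW : Lev W) (hE : E ~[atTop] PP W E) :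
    Tendsto (fun n : ℕ => SS W E n / (kap W E n * Real.log n)) atTop (𝓝 1) := by
  have hEi := (h.E_sqrt hW hE).inv₀ one_ne_zero
  have hθi := (hW.theta_sqrt).inv₀ one_ne_zero
  rw [inv_one] at hEi hθi
  have hlog1 : Tendsto (fun n : ℕ => 1 - Real.log (n.sqrt : ℕ) / Real.log (n : ℝ)) atTop
      (𝓝 (1 / 2)) := by
    have := Lev.log_sqrt.const_sub 1
    norm_num at this
    norm_num
    exact this
  refine rec_sqrt _ (fun n => (kap W E n.sqrt / kap W E n) *
      (Real.log (n.sqrt : ℕ) / Real.log (n : ℝ)))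
    (fun n => (SS W E n - SS W E n.sqrt) / (kap W E n * Real.log n)) ?_ ?_ ?_
  · have h1 := (hθi.mul hEi).mul Lev.log_sqrt
    rw [one_mul, one_mul] at h1
    refine h1.congr (fun n => ?_)
    unfold kap
    have i1 := (Path.theta_pos (W n)).ne'
    have i2 := (Path.theta_pos (W n.sqrt)).ne'
    have i3 := (h.pos (W n)).ne'
    have i4 := (h.pos (W n.sqrt)).ne'
    congr 1
    field_simp
  · have hlo := hEi.mul hlog1
    rw [one_mul] at hlo
    have hlog2 : Tendsto (fun n : ℕ => 1 - Real.log (n.sqrt : ℕ) / Real.log (n : ℝ) +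
        1 / Real.log (n : ℝ)) atTop (𝓝 (1 / 2)) := by
      have := hlog1.add ((tendsto_const_nhds (x := (1 : ℝ)) (f := atTop)).div_atTop tlog)
      rwa [add_zero] at this
    have hup := hθi.mul hlog2
    rw [one_mul] at hup
    refine tendsto_of_tendsto_of_tendsto_of_le_of_le' hlo hup ?_ ?_
    · filter_upwards [eventually_ge_atTop 2] with n hn
      have hn' : (2 : ℝ) ≤ n := by exact_mod_cast hn
      have hl : 0 < Real.log (n : ℝ) := Real.log_pos (by linarith)
      have hr1 : 1 ≤ n.sqrt := Nat.le_sqrt.2 (by omega)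
      have h8 := h.diff_low hW.mono hr1 (Nat.sqrt_le_self n)
      have i1 := Path.theta_pos (W n)
      have i3 := h.pos (W n)
      have hk : 0 < kap W E n * Real.log n := mul_pos (h.kap_pos n) hl
      rw [le_div_iff₀ hk]
      refine le_trans (le_of_eq ?_) h8
      unfold kap
      have i4 := h.pos (W n.sqrt)
      field_simp
    · filter_upwards [eventually_ge_atTop 2] with n hn
      have hn' : (2 : ℝ) ≤ n := by exact_mod_cast hn
      have hl : 0 < Real.log (n : ℝ) := Real.log_pos (by linarith)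
      have hr1 : 1 ≤ n.sqrt := Nat.le_sqrt.2 (by omega)
      have hr1' : (1 : ℝ) ≤ n.sqrt := by exact_mod_cast hr1
      have h8 := h.diff_up hW.mono hr1 (Nat.sqrt_le_self n)
      have i1 := Path.theta_pos (W n)
      have i2 := Path.theta_pos (W n.sqrt)
      have i3 := h.pos (W n)
      have hk : 0 < kap W E n * Real.log n := mul_pos (h.kap_pos n) hl
      have h9 : 1 / (n.sqrt : ℝ) ≤ 1 := by rw [div_le_one (by linarith)]; exact hr1'
      have h10 : Path.theta (W n.sqrt) * E (W n) *
          (Real.log n - Real.log (n.sqrt : ℕ) + 1 / (n.sqrt : ℝ)) ≤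
          Path.theta (W n.sqrt) * E (W n) * (Real.log n - Real.log (n.sqrt : ℕ) + 1) :=
        mul_le_mul_of_nonneg_left (by linarith) (mul_pos i2 i3).le
      rw [div_le_iff₀ hk]
      refine (h8.trans h10).trans (le_of_eq ?_)
      unfold kap
      field_simp
  · filter_upwards [eventually_ge_atTop 4] with n hn
    have hn' : (4 : ℝ) ≤ n := by exact_mod_cast hn
    have hl : 0 < Real.log (n : ℝ) := Real.log_pos (by linarith)
    have hr1 : 2 ≤ n.sqrt := Nat.le_sqrt.2 (by omega)
    have hr1' : (2 : ℝ) ≤ n.sqrt := by exact_mod_cast hr1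
    have hlr : 0 < Real.log (n.sqrt : ℝ) := Real.log_pos (by linarith)
    have i1 := (h.kap_pos (W := W) n).ne'
    have i2 := (h.kap_pos (W := W) n.sqrt).ne'
    field_simp
    ring

/-- **Theorem.** The asymptotics of the reciprocal sieving product. -/
theorem final (h : EBase E) (hW : Lev W) (hE : E ~[atTop] PP W E) :
    Tendsto (fun n : ℕ => E (W n) / E (n - 1) * (Path.theta (W n) * Real.log n)) atTop
      (𝓝 1) := by
  have h1 := (h.E_div_SS hW hE).mul (h.s_lim hW hE)
  rw [one_mul] at h1
  have h2 := h1.inv₀ one_ne_zero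
  rw [inv_one] at h2
  have h3 : Tendsto (fun n : ℕ => E n / E (n - 1)) atTop (𝓝 1) := by
    have h4 : Tendsto (fun n : ℕ => 1 + 1 / ((n : ℝ) - 1)) atTop (𝓝 (1 + 0)) := by
      apply Tendsto.const_add
      apply Tendsto.div_atTop tendsto_const_nhds
      exact tendsto_atTop_add_const_right _ _ tendsto_natCast_atTop_atTop
    rw [add_zero] at h4
    refine tendsto_of_tendsto_of_tendsto_of_le_of_le' tendsto_const_nhds h4 ?_ ?_
    · refine Eventually.of_forall (fun n => ?_)
      rw [one_le_div (h.pos _)]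
      exact h.mono (Nat.sub_le n 1)
    · filter_upwards [eventually_ge_atTop 2] with n hn
      obtain ⟨m, rfl⟩ : ∃ m, n = m + 1 := ⟨n - 1, by omega⟩
      have hm : (1 : ℝ) ≤ m := by exact_mod_cast (by omega : 1 ≤ m)
      have h5 := h.anti m (m + 1) (by omega) (by omega)
      rw [show m + 1 - 1 = m by omega, div_le_iff₀ (h.pos m)]
      push_cast at h5 ⊢
      have e : (1 + 1 / ((m : ℝ) + 1 - 1)) * E m = (E m * (m + 1)) / m := by
        have : (m : ℝ) + 1 - 1 = m := by ring
        rw [this]; field_simp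
      rw [e, le_div_iff₀ (by linarith)]
      exact h5
  have h6 := h2.mul h3
  rw [one_mul] at h6
  refine h6.congr' ?_
  filter_upwards [h.SS_pos_ev hW, eventually_ge_atTop 2] with n h7 hn
  have hn' : (2 : ℝ) ≤ n := by exact_mod_cast hn
  have hl : 0 < Real.log (n : ℝ) := Real.log_pos (by linarith)
  have i1 := (Path.theta_pos (W n)).ne'
  have i3 := (h.pos (W n)).ne'
  have i4 := (h.pos n).ne'
  have i5 := (h.pos (n - 1)).ne'
  unfold kap
  field_simp

end EBase

end Pool.Agent.Lib.MP_3efbeb_nt.GL
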