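import Pool.Agent.Lib.MP_3efbeb_nt.RST.Law
import Pool.Agent.Lib.MP_3efbeb_nt.GL.Sv

set_option autoImplicit false
set_option linter.unusedSectionVars false
set_option linter.unusedVariables false

open Filter Topology MeasureTheory ProbabilityTheory Asymptotics

namespace Pool.Agent.Lib.MP_3efbeb_nt.GL

open Pool.Agent.Lib.MP_926cc3_nt.RS Pool.Agent.Lib.MP_3efbeb_nt.RST

variable {Ω : Type*} [m0 : MeasurableSpace Ω]

/-- reciprocal of the sieving product of the kept numbers up to `n` -/
noncomputable def K (W : ℕ → ℕ) (A : ℕ → ℕ → Set Ω) (n : ℕ) (ω : Ω) : ℝ :=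
  (∏ m ∈ Finset.range (n + 1), (1 - ind (growSet W A) m ω / m))⁻¹

namespace KM

variable {μ : Measure Ω} [IsProbabilityMeasure μ] {W : ℕ → ℕ} {A : ℕ → ℕ → Set Ω}

theorem prod_pos (B : Finset ℕ) (ω : Ω) :
    0 < ∏ m ∈ B, (1 - ind (growSet W A) m ω / m) :=
  Finset.prod_pos (fun m _ => by linarith [(Sv.factor_bounds (W := W) (A := A) m ω).1])

theorem K_pos (n : ℕ) (ω : Ω) : 0 < K W A n ω := inv_pos.2 (prod_pos _ ω)

theorem one_le_K (n : ℕ) (ω : Ω) : 1 ≤ K W A n ω :=
  (one_le_inv₀ (prod_pos _ ω)).2 (Sv.prod_le_one _ ω)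

theorem ind_small {n : ℕ} (hn : n < 2) (ω : Ω) : ind (growSet W A) n ω = 0 :=
  Dens.ind_of_not (fun h => by have := Sv.two_le h; omega)

theorem K_zero (ω : Ω) : K W A 0 ω = 1 := by
  unfold K; simp

theorem K_succ (n : ℕ) (ω : Ω) :
    K W A (n + 1) ω = K W A n ω + K W A n ω / n * ind (growSet W A) (n + 1) ω := by
  unfold K
  rw [Finset.prod_range_succ _ (n + 1), mul_inv]
  set P := ∏ m ∈ Finset.range (n + 1), (1 - ind (growSet W A) m ω / m) with hP
  by_cases h : (n + 1) ∈ growSet W A ω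
  · have h2 := Sv.two_le h
    have hn : (1 : ℝ) ≤ n := by exact_mod_cast (by omega : 1 ≤ n)
    rw [Dens.ind_of_mem h]
    have h6 : (1 - 1 / ((n + 1 : ℕ) : ℝ))⁻¹ = 1 + 1 / (n : ℝ) := by
      push_cast
      have h5 : 1 - 1 / ((n : ℝ) + 1) = n / (n + 1) := by field_simp; ring
      rw [h5, inv_div]
      field_simp
    rw [h6]; ring
  · rw [Dens.ind_of_not h]; simp

theorem K_one (ω : Ω) : K W A 1 ω = 1 := by
  rw [show (1 : ℕ) = 0 + 1 from rfl, K_succ, K_zero]; simp

theorem K_mono (ω : Ω) : Monotone (fun n => K W A n ω) := by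
  apply monotone_nat_of_le_succ
  intro n
  rw [K_succ]
  have h2 := (K_pos (W := W) (A := A) n ω).le
  have h3 := Dens.ind_nonneg (R := growSet W A) (n + 1) ω
  have : 0 ≤ K W A n ω / n * ind (growSet W A) (n + 1) ω :=
    mul_nonneg (div_nonneg h2 (Nat.cast_nonneg _)) h3
  linarith

/-- `K n / n` is antitone -/
theorem K_anti {m n : ℕ} (hm : 1 ≤ m) (hmn : m ≤ n) (ω : Ω) :
    K W A n ω * m ≤ K W A m ω * n := by
  induction n, hmn using Nat.le_induction with
  | base => exact le_rfl
  | succ n hn ih =>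
    have hn0 : (0 : ℝ) < n := by exact_mod_cast (by omega : 0 < n)
    have h1 : K W A (n + 1) ω ≤ K W A n ω * ((n + 1) / n) := by
      rw [K_succ]
      have h2 := (K_pos (W := W) (A := A) n ω).le
      have h3 := Dens.ind_le_one (R := growSet W A) (n + 1) ω
      have h4 : 0 ≤ K W A n ω / n := div_nonneg h2 hn0.le
      have h5 : K W A n ω * ((n + 1) / n) = K W A n ω + K W A n ω / n * 1 := by field_simp
      rw [h5]
      have := mul_le_mul_of_nonneg_left h3 h4
      linarith
    have hm0 : (0 : ℝ) ≤ m := Nat.cast_nonneg _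
    calc K W A (n + 1) ω * m ≤ K W A n ω * ((n + 1) / n) * m :=
          mul_le_mul_of_nonneg_right h1 hm0
      _ = (K W A n ω * m) * ((n + 1) / n) := by ring
      _ ≤ (K W A m ω * n) * ((n + 1) / n) := mul_le_mul_of_nonneg_right ih (by positivity)
      _ = K W A m ω * ((n + 1 : ℕ) : ℝ) := by push_cast; field_simp

theorem K_le {n : ℕ} (hn : 1 ≤ n) (ω : Ω) : K W A n ω ≤ n := by
  have := K_anti (W := W) (A := A) (le_refl 1) hn ω
  rw [K_one] at this
  simpa using this

theorem K_div_nonneg (n : ℕ) (ω : Ω) : 0 ≤ K W A n ω / n :=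
  div_nonneg (K_pos n ω).le (Nat.cast_nonneg _)

theorem K_div_le (n : ℕ) (ω : Ω) : K W A n ω / n ≤ 1 := by
  rcases Nat.eq_zero_or_pos n with h | h
  · rw [h]; simp
  · rw [div_le_one (by exact_mod_cast h)]
    exact K_le h ω

theorem K_meas (hA : ∀ m n, MeasurableSet (A m n)) {n k : ℕ} (h : n ≤ k) :
    Measurable[filt A hA k] (K W A n) := by
  unfold K
  have : Measurable[filt A hA k] (fun ω => (∏ m ∈ Finset.range (n + 1),
      (1 - ind (growSet W A) m ω / m))⁻¹) := by
    apply Measurable.inv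
    apply Finset.measurable_fun_prod
    intro m hm
    rw [Finset.mem_range] at hm
    exact measurable_const.sub ((Sv.ind_meas hA (by omega)).div_const _)
  exact this

theorem K_dW (n : ℕ) (ω : Ω) :
    K W A n ω * dW W A (n + 1) ω = rho W (n + 1) * K W A (min (W (n + 1)) n) ω := by
  unfold K dW
  have h1 : Finset.Ioo (W (n + 1)) (n + 1) = Finset.Ico (min (W (n + 1)) n + 1) (n + 1) := by
    ext m; simp only [Finset.mem_Ioo, Finset.mem_Ico]; omega
  rw [h1, ← Finset.prod_range_mul_prod_Ico (fun m : ℕ => (1 - ind (growSet W A) m ω / (m : ℝ)))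
    (show min (W (n + 1)) n + 1 ≤ n + 1 by omega)]
  have h2 := (prod_pos (W := W) (A := A) (Finset.range (min (W (n + 1)) n + 1)) ω).ne'
  have h3 := (prod_pos (W := W) (A := A) (Finset.Ico (min (W (n + 1)) n + 1) (n + 1)) ω).ne'
  rw [mul_inv]
  field_simp

theorem lawData (hA : ∀ m n, MeasurableSet (A m n))
    (hD : Dens μ (filt A hA) (growSet W A) (dW W A)) :
    LawData μ (filt A hA) (growSet W A) (dW W A) (fun n => n + 1)
      (fun n ω => K W A n ω / n) where
  dens := hD
  mono := fun a b hab => by simp only; omega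
  one_le := le_rfl
  nonneg := fun n ω => K_div_nonneg n ω
  le_one := fun n ω => K_div_le n ω
  meas := fun n => by
    have e : n + 1 - 1 = n := by omega
    rw [e]
    exact (K_meas hA le_rfl).div_const _

theorem tele (n : ℕ) (ω : Ω) :
    ∑ i ∈ Finset.range n, K W A i ω / i * ind (growSet W A) (i + 1) ω = K W A n ω - 1 := by
  induction n with
  | zero => rw [K_zero]; simp
  | succ n ih => rw [Finset.sum_range_succ, ih, K_succ]; ring

/-- the main consequence of the law of large numbers -/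
theorem main (hA : ∀ m n, MeasurableSet (A m n))
    (hD : Dens μ (filt A hA) (growSet W A) (dW W A)) :
    ∀ᵐ ω ∂μ, Tendsto (fun n => ∑ i ∈ Finset.range n,
        rho W (i + 1) * K W A (min (W (i + 1)) i) ω / i) atTop atTop →
      (fun n => K W A n ω) ~[atTop] (fun n => ∑ i ∈ Finset.range n,
        rho W (i + 1) * K W A (min (W (i + 1)) i) ω / i) := by
  filter_upwards [(lawData (μ := μ) hA hD).law] with ω hω hP
  have e : ∀ i, K W A i ω / i * dW W A (i + 1) ω =
      rho W (i + 1) * K W A (min (W (i + 1)) i) ω / i := by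
    intro i
    rw [← K_dW]; ring
  simp only [e, tele] at hω
  have h1 := hω hP
  have h2 : (fun _ : ℕ => (1 : ℝ)) =o[atTop] (fun n => ∑ i ∈ Finset.range n,
      rho W (i + 1) * K W A (min (W (i + 1)) i) ω / i) := by
    rw [isLittleO_const_left]
    exact Or.inr (tendsto_norm_atTop_atTop.comp hP)
  have h3 := h1.add_isLittleO h2
  refine h3.congr_left (Eventually.of_forall (fun n => ?_))
  simp

end KM

end Pool.Agent.Lib.MP_3efbeb_nt.GL
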