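import Pool.Agent.Lib.MP_3efbeb_nt.GL.Det
import Pool.Agent.Lib.MP_3efbeb_nt.GL.KM
import Pool.Agent.Lib.MP_3efbeb_nt.RST.Main

set_option autoImplicit false
set_option linter.unusedSectionVars false
set_option linter.unusedVariables false

open Filter Topology MeasureTheory ProbabilityTheory Asymptotics

namespace Pool.Agent.Lib.MP_3efbeb_nt.GL

open Pool.Agent.Lib.MP_926cc3_nt.RS Pool.Agent.Lib.MP_3efbeb_nt.RST

variable {Ω : Type*} [m0 : MeasurableSpace Ω]

theorem ebase (W : ℕ → ℕ) (A : ℕ → ℕ → Set Ω) (ω : Ω) : EBase (fun n => K W A n ω) where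
  one_le := fun n => KM.one_le_K n ω
  mono := KM.K_mono ω
  anti := fun m n hm hmn => KM.K_anti hm hmn ω
  zero := KM.K_zero ω
  one := KM.K_one ω

variable {μ : Measure Ω} [IsProbabilityMeasure μ] {W : ℕ → ℕ} {A : ℕ → ℕ → Set Ω}

/-- Mertens' theorem for the sieve of level `W` -/
theorem mertens_ae (hW : Lev W) (hA : ∀ m n, MeasurableSet (A m n))
    (hI : iIndepSet (fun q : ℕ × ℕ => A q.1 q.2) μ)
    (hP : ∀ m n, W n < m → m < n → μ.real (A m n) = 1 / m) :
    ∀ᵐ ω ∂μ, Tendsto (fun n : ℕ => K W A (W n) ω / K W A (n - 1) ω *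
      (Path.theta (W n) * Real.log n)) atTop (𝓝 1) := by
  filter_upwards [KM.main hA (Sv.dens (μ := μ) hA hI hP)] with ω hω
  have hE := ebase W A ω
  exact hE.final hW (hω (hE.PP_atTop hW))

/-- the predictable density is asymptotic to the deterministic one -/
theorem dens_ae (hW : Lev W) (hA : ∀ m n, MeasurableSet (A m n))
    (hI : iIndepSet (fun q : ℕ × ℕ => A q.1 q.2) μ)
    (hP : ∀ m n, W n < m → m < n → μ.real (A m n) = 1 / m) :
    ∀ᵐ ω ∂μ, (fun n => dW W A n ω) ~[atTop] gW W := by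
  filter_upwards [mertens_ae hW hA hI hP] with ω hω
  rw [isEquivalent_iff_exists_eq_mul]
  refine ⟨_, hω, ?_⟩
  filter_upwards [hW.lt_self, hW.u_atTop.eventually_gt_atTop 0, eventually_ge_atTop 2]
    with n h1 h2 h3
  obtain ⟨m, rfl⟩ : ∃ m, n = m + 1 := ⟨n - 1, by omega⟩
  have h4 := KM.K_dW (W := W) (A := A) m ω
  rw [min_eq_left (by omega)] at h4
  have h5 := (KM.K_pos (W := W) (A := A) m ω).ne'
  simp only [Pi.mul_apply, gW, show m + 1 - 1 = m by omega]
  have h6 := h2.ne'
  have e : dW W A (m + 1) ω = rho W (m + 1) * K W A (W (m + 1)) ω / K W A m ω := by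
    rw [← h4]; field_simp
  rw [e]
  generalize Path.theta (W (m + 1)) * Real.log ((m + 1 : ℕ) : ℝ) = t at h6 ⊢
  field_simp

/-- the tuple law with a prescribed limit of the truncated singular series -/
theorem tuple_ae (hW : Lev W) (hA : ∀ m n, MeasurableSet (A m n))
    (hI : iIndepSet (fun q : ℕ × ℕ => A q.1 q.2) μ)
    (hP : ∀ m n, W n < m → m < n → μ.real (A m n) = 1 / m) (H : Finset ℕ) (hne : H.Nonempty)
    (S : ℝ) (hS : 0 < S) (hlim : Tendsto (fun n => sing (W n) H) atTop (𝓝 S)) :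
    ∀ᵐ ω ∂μ, Tendsto (fun x : ℕ => (constCount (growSet W A ω) H x : ℝ) /
      ((x : ℝ) / Real.log (x : ℝ) ^ H.card)) atTop (𝓝 S) := by
  have hd := tup_det hW H hne S hS hlim
  have hdiv : Tendsto (fun x : ℕ => S * ((x : ℝ) / Real.log (x : ℝ) ^ H.card))
      atTop atTop := (div_log_atTop H.card).const_mul_atTop hS
  obtain ⟨B, hB0, hB⟩ := den_bdd hW
  have h1 := iter (Sv.dens (μ := μ) hA hI hP) (gW W) B (gW_nonneg W) (gW_le hB)
    (dens_ae hW hA hI hP) (fun i n => n + 1 + i)
    (fun i => fun a b hab => by simp only; omega) (fun i => by omega) H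
    (fun i _ j _ hij n => by omega) (fun _ => 1) 1 (fun _ => zero_le_one) (fun _ => le_rfl)
    (by simpa using hd.symm.tendsto_atTop hdiv)
  filter_upwards [h1] with ω hω
  simp only [one_mul] at hω
  have h2 := hω.trans hd
  have h3 : Tendsto (fun x : ℕ => (∑ n ∈ Finset.range x, ∏ i ∈ H,
      ind (growSet W A) (n + 1 + i) ω) / (S * ((x : ℝ) / Real.log (x : ℝ) ^ H.card)))
      atTop (𝓝 1) := by
    have hz : ∀ᶠ x : ℕ in atTop, S * ((x : ℝ) / Real.log (x : ℝ) ^ H.card) ≠ 0 :=
      (hdiv.eventually_gt_atTop 0).mono (fun x hx => hx.ne')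
    exact (isEquivalent_iff_tendsto_one hz).1 h2
  have h4 := h3.const_mul S
  rw [mul_one] at h4
  refine h4.congr (fun x => ?_)
  rw [constCount_eq]
  rw [← mul_div_assoc, mul_div_mul_left _ _ hS.ne']

/-- the truncated singular series along the level converges to a positive number -/
theorem sing_lim (hW : Lev W) (H : Finset ℕ)
    (h : ∀ p, p.Prime → (∃ n, p ≤ W n) → nu H p < p) :
    ∃ S : ℝ, 0 < S ∧ Tendsto (fun n => sing (W n) H) atTop (𝓝 S) := by
  rcases hW.dicho with ht | ⟨w, hw⟩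
  · refine ⟨_, hl_pos H (fun p hp => h p hp ?_), (sing_tendsto H).comp ht⟩
    exact (ht.eventually_ge_atTop p).exists
  · obtain ⟨n, hn⟩ := hw.exists
    refine ⟨sing w H, sing_pos (fun p hp hpw => h p hp ⟨n, by rw [hn]; exact hpw⟩), ?_⟩
    refine tendsto_const_nhds.congr' ?_
    filter_upwards [hw] with m hm
    rw [hm]

/-- **Theorem.** The prime tuples law in the sieve of level `W`. -/
theorem tuple_all (hW : Lev W) (hA : ∀ m n, MeasurableSet (A m n))
    (hI : iIndepSet (fun q : ℕ × ℕ => A q.1 q.2) μ)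
    (hP : ∀ m n, W n < m → m < n → μ.real (A m n) = 1 / m) :
    ∀ᵐ ω ∂μ, ∀ H : Finset ℕ, H.Nonempty → (∀ p, p.Prime → (∃ n, p ≤ W n) → nu H p < p) →
      Tendsto (fun x : ℕ => (constCount (growSet W A ω) H x : ℝ) /
        (sing (W x) H * ((x : ℝ) / Real.log (x : ℝ) ^ H.card))) atTop (𝓝 1) ∧
      {n | ∀ h ∈ H, n + h ∈ growSet W A ω}.Infinite := by
  rw [ae_all_iff]
  intro H
  by_cases h : H.Nonempty ∧ ∀ p, p.Prime → (∃ n, p ≤ W n) → nu H p < p
  · obtain ⟨S, hS, hlim⟩ := sing_lim hW H h.2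
    filter_upwards [tuple_ae hW hA hI hP H h.1 S hS hlim] with ω hω _ _
    refine ⟨?_, infinite_of_tendsto hS hω⟩
    have h1 := hω.div hlim hS.ne'
    rw [div_self hS.ne'] at h1
    refine h1.congr (fun x => ?_)
    simp only [Pi.div_apply]
    rw [div_div, mul_comm (sing (W x) H)]
  · refine ae_of_all _ (fun ω h1 h2 => absurd ⟨h1, h2⟩ h)

/-- **Theorem.** If the level tends to infinity, the constants are those of Hardy and
Littlewood. -/
theorem tuple_hl (hW : Lev W) (ht : Tendsto W atTop atTop) (hA : ∀ m n, MeasurableSet (A m n))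
    (hI : iIndepSet (fun q : ℕ × ℕ => A q.1 q.2) μ)
    (hP : ∀ m n, W n < m → m < n → μ.real (A m n) = 1 / m) :
    ∀ᵐ ω ∂μ, ∀ H : Finset ℕ, H.Nonempty → (∀ p, p.Prime → nu H p < p) →
      Tendsto (fun x : ℕ => (constCount (growSet W A ω) H x : ℝ) /
        ((x : ℝ) / Real.log (x : ℝ) ^ H.card)) atTop (𝓝 (∏' p : Nat.Primes, locFac H p)) := by
  rw [ae_all_iff]
  intro H
  by_cases h : H.Nonempty ∧ ∀ p, p.Prime → nu H p < p
  · filter_upwards [tuple_ae hW hA hI hP H h.1 _ (hl_pos H h.2) ((sing_tendsto H).comp ht)]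
      with ω hω _ _
    exact hω
  · refine ae_of_all _ (fun ω h1 h2 => absurd ⟨h1, h2⟩ h)

/-- a kept multiple of a prime of the level is that prime -/
theorem grow_mult {ω : Ω} {m p : ℕ} (hm : m ∈ growSet W A ω)
    (hp : p.Prime) (hpW : p ≤ W m) (hd : p ∣ m) : m = p := by
  obtain ⟨h1, -⟩ := (Sv.mem_iff m ω).1 hm
  by_contra hne
  have h2 : p ≤ m := Nat.le_of_dvd (by have := h1.1; omega) hd
  exact h1.2 p hp hpW (by omega) hd

theorem grow_cover (hmono : Monotone W) {ω : Ω} {H : Finset ℕ} {p n0 : ℕ} (hp : p.Prime)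
    (hpW : p ≤ W n0) (hH : nu H p = p) {n : ℕ} (hn : ∀ h ∈ H, n + h ∈ growSet W A ω) :
    n ≤ max n0 p := by
  have h1 : H.image (fun h => h % p) = Finset.range p := by
    apply Finset.eq_of_subset_of_card_le
    · intro r hr
      obtain ⟨h, _, rfl⟩ := Finset.mem_image.1 hr
      exact Finset.mem_range.2 (Nat.mod_lt _ hp.pos)
    · rw [Finset.card_range]; exact hH.ge
  have h2 : (p - n % p) % p ∈ H.image (fun h => h % p) := by
    rw [h1]; exact Finset.mem_range.2 (Nat.mod_lt _ hp.pos)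
  obtain ⟨h, hh, he⟩ := Finset.mem_image.1 h2
  have h3 : p ∣ n + h := by
    rw [← Nat.modEq_zero_iff_dvd]
    have h5 : n % p < p := Nat.mod_lt _ hp.pos
    have h4 : n + h ≡ n % p + (p - n % p) [MOD p] := (Nat.mod_modEq n p).symm.add he
    have e : n % p + (p - n % p) = p := by omega
    rw [e] at h4
    exact h4.trans ((Nat.modEq_zero_iff_dvd).2 dvd_rfl)
  by_contra hlt
  push Not at hlt
  have h4 : n0 < n ∧ p < n := by omega
  have h6 := grow_mult (hn h hh) hp (hpW.trans (hmono (by omega))) h3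
  omega

/-- the sieving product in terms of the reciprocal products -/
theorem mertensProd_eq (W : ℕ → ℕ) (A : ℕ → ℕ → Set Ω) (ω : Ω) {n : ℕ} (hn : W n < n) :
    mertensProd (growSet W A ω) (W n) n = K W A (W n) ω / K W A (n - 1) ω := by
  classical
  obtain ⟨m, rfl⟩ : ∃ m, n = m + 1 := ⟨n - 1, by omega⟩
  have h0 : ∀ i : ℕ, (1 - ind (growSet W A) i ω / (i : ℝ)) =
      if i ∈ growSet W A ω then (1 - 1 / (i : ℝ)) else 1 := by
    intro i
    split_ifs with h
    · rw [Dens.ind_of_mem h]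
    · rw [Dens.ind_of_not h]; simp
  have h1 : mertensProd (growSet W A ω) (W (m + 1)) (m + 1) =
      ∏ i ∈ Finset.Ico (W (m + 1) + 1) (m + 1), (1 - ind (growSet W A) i ω / (i : ℝ)) := by
    unfold mertensProd
    rw [Finset.prod_filter]
    have h2 : Finset.Ioo (W (m + 1)) (m + 1) = Finset.Ico (W (m + 1) + 1) (m + 1) := by
      ext i; simp only [Finset.mem_Ioo, Finset.mem_Ico]; omega
    rw [h2]
    exact Finset.prod_congr rfl (fun i _ => (h0 i).symm)
  rw [h1, show m + 1 - 1 = m by omega]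
  unfold K
  rw [← Finset.prod_range_mul_prod_Ico (fun i : ℕ => (1 - ind (growSet W A) i ω / (i : ℝ)))
    (show W (m + 1) + 1 ≤ m + 1 by omega)]
  have h2 := (KM.prod_pos (W := W) (A := A) (Finset.range (W (m + 1) + 1)) ω).ne'
  have h3 := (KM.prod_pos (W := W) (A := A) (Finset.Ico (W (m + 1) + 1) (m + 1)) ω).ne'
  rw [mul_inv]
  field_simp

/-- **Theorem.** Mertens' theorem in the sieve of level `W`. -/
theorem mertens (hW : Lev W) (hA : ∀ m n, MeasurableSet (A m n))
    (hI : iIndepSet (fun q : ℕ × ℕ => A q.1 q.2) μ)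
    (hP : ∀ m n, W n < m → m < n → μ.real (A m n) = 1 / m) :
    ∀ᵐ ω ∂μ, Tendsto (fun n : ℕ => mertensProd (growSet W A ω) (W n) n *
      (Real.log n * ∏ p ∈ (Finset.range (W n + 1)).filter Nat.Prime, (1 - 1 / (p : ℝ))))
      atTop (𝓝 1) := by
  filter_upwards [mertens_ae (μ := μ) hW hA hI hP] with ω hω
  refine hω.congr' ?_
  filter_upwards [hW.lt_self] with n hn
  rw [mertensProd_eq W A ω (by omega), theta_eq, mul_comm (Real.log (n : ℝ))]

/-- at constant level `N` the sieve is the one in which a kept `m ≤ N` strikes out its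
multiples -/
theorem growSet_const (N : ℕ) (A : ℕ → ℕ → Set Ω) (ω : Ω) :
    growSet (fun _ => N) A ω = sieveSet N A ω := by
  ext n
  induction n using Nat.strong_induction_on with
  | _ n ih =>
    rw [Sv.mem_iff]
    rcases Nat.lt_or_ge n (N + 2) with h | h
    · have h1 := kept_small N (fun m n => ω ∈ A m n) n (by omega)
      have h2 := keptW_exact (fun _ => N) (fun m n => ω ∈ A m n) n (show n ≤ N + 1 by omega)
      exact ((Sv.mem_iff n ω).symm.trans h2).trans h1.symm
    · have h1 := kept_large N (fun m n => ω ∈ A m n) n h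
      have h2 := rough_iff (W := fun _ => N) (n := n) (by omega) (show N < n by omega)
      rw [h2]
      refine Iff.trans ?_ h1.symm
      refine and_congr Iff.rfl ?_
      constructor
      · intro h3 m hm hmn hk
        exact h3 m hm hmn ((ih m hmn).2 hk)
      · intro h3 m hm hmn hk
        exact h3 m hm hmn ((ih m hmn).1 hk)

/-- the level `max N ⌊log n / 2⌋` -/
theorem lev_example (N : ℕ) : Lev (fun n : ℕ => max N ⌊Real.log n / 2⌋₊) where
  mono := by
    intro a b hab
    apply max_le_max le_rfl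
    apply Nat.floor_le_floor
    rcases Nat.eq_zero_or_pos a with h | h
    · rw [h]
      simp only [CharP.cast_eq_zero, Real.log_zero, zero_div]
      have := Real.log_natCast_nonneg b
      positivity
    · have : Real.log (a : ℝ) ≤ Real.log b :=
        Real.log_le_log (by exact_mod_cast h) (by exact_mod_cast hab)
      linarith
  small := by
    filter_upwards [tlog.eventually_ge_atTop (2 * N)] with n hn
    have h1 := Nat.floor_le (show 0 ≤ Real.log (n : ℝ) / 2 by
      have := Real.log_natCast_nonneg n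
      positivity)
    push_cast
    rcases le_total (N : ℝ) (⌊Real.log (n : ℝ) / 2⌋₊ : ℝ) with h | h
    · rw [max_eq_right h]; linarith
    · rw [max_eq_left h]; linarith
  dbl := by
    refine ⟨3, ?_⟩
    filter_upwards [tlog.eventually_ge_atTop 2] with n hn
    have h0 : Real.log ((n ^ 2 : ℕ) : ℝ) / 2 = Real.log n := by
      push_cast
      rw [Real.log_pow]
      push_cast
      ring
    rw [h0]
    have h1 := Nat.lt_floor_add_one (Real.log (n : ℝ) / 2)
    have h2 : 1 ≤ ⌊Real.log (n : ℝ) / 2⌋₊ := Nat.le_floor (by push_cast; linarith)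
    have h3 : ⌊Real.log (n : ℝ)⌋₊ ≤ 3 * ⌊Real.log (n : ℝ) / 2⌋₊ := by
      have h4 : ⌊Real.log (n : ℝ)⌋₊ < 2 * ⌊Real.log (n : ℝ) / 2⌋₊ + 2 := by
        rw [Nat.floor_lt (by linarith)]
        push_cast
        linarith
      omega
    have h5 : ⌊Real.log (n : ℝ) / 2⌋₊ ≤ max N ⌊Real.log (n : ℝ) / 2⌋₊ := le_max_right _ _
    have h6 : N ≤ max N ⌊Real.log (n : ℝ) / 2⌋₊ := le_max_left _ _
    apply max_le
    · omega
    · omega

theorem lev_example_top (N : ℕ) :
    Tendsto (fun n : ℕ => max N ⌊Real.log n / 2⌋₊) atTop atTop := by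
  have h1 : Tendsto (fun n : ℕ => ⌊Real.log (n : ℝ) / 2⌋₊) atTop atTop :=
    tendsto_nat_floor_atTop.comp (tlog.atTop_div_const (by norm_num))
  exact tendsto_atTop_mono (fun n => le_max_right _ _) h1

theorem lev_const (N : ℕ) : Lev (fun _ : ℕ => N) where
  mono := monotone_const
  small := by
    filter_upwards [tlog.eventually_ge_atTop (2 * N)] with n hn
    exact hn
  dbl := ⟨1, Eventually.of_forall (fun n => by omega)⟩

end Pool.Agent.Lib.MP_3efbeb_nt.GL
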