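import Pool.Agent.Lib.MP_3efbeb_nt.RST.Tuple

set_option autoImplicit false
set_option linter.unusedSectionVars false
set_option linter.unusedVariables false

open Filter Topology Asymptotics

namespace Pool.Agent.Lib.MP_3efbeb_nt.GL

open Pool.Agent.Lib.MP_926cc3_nt.RS Pool.Agent.Lib.MP_3efbeb_nt.RST

/-- partial summation on an interval -/
theorem abel (x b : ℕ → ℝ) (B : ℝ) (a : ℕ) (hb : ∀ i, a ≤ i → b (i + 1) ≤ b i)
    (hb0 : ∀ i, a ≤ i → 0 ≤ b i) (hx : ∀ n, a ≤ n → |∑ i ∈ Finset.Ico a n, x i| ≤ B)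
    {n : ℕ} (hn : a ≤ n) : |∑ i ∈ Finset.Ico a n, x i * b i| ≤ B * b a := by
  set X : ℕ → ℝ := fun n => ∑ i ∈ Finset.Ico a n, x i with hX
  have key : ∀ n, a ≤ n → ∑ i ∈ Finset.Ico a n, x i * b i =
      X n * b n + ∑ i ∈ Finset.Ico a n, X (i + 1) * (b i - b (i + 1)) := by
    intro n hn
    induction n, hn using Nat.le_induction with
    | base => simp [hX]
    | succ n hn ih =>
      have e : X (n + 1) = X n + x n := by rw [hX]; exact Finset.sum_Ico_succ_top hn _
      rw [Finset.sum_Ico_succ_top hn, Finset.sum_Ico_succ_top hn, ih, e]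
      ring
  have tel : ∀ n, a ≤ n → ∑ i ∈ Finset.Ico a n, (b i - b (i + 1)) = b a - b n := by
    intro n hn
    induction n, hn using Nat.le_induction with
    | base => simp
    | succ n hn ih => rw [Finset.sum_Ico_succ_top hn, ih]; ring
  rw [key n hn]
  have h1 : |X n * b n| ≤ B * b n := by
    rw [abs_mul, abs_of_nonneg (hb0 n hn)]
    exact mul_le_mul_of_nonneg_right (hx n hn) (hb0 n hn)
  have h2 : |∑ i ∈ Finset.Ico a n, X (i + 1) * (b i - b (i + 1))| ≤ B * (b a - b n) := by
    rw [← tel n hn, Finset.mul_sum]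
    refine (Finset.abs_sum_le_sum_abs _ _).trans (Finset.sum_le_sum (fun i hi => ?_))
    rw [Finset.mem_Ico] at hi
    have h3 : 0 ≤ b i - b (i + 1) := by linarith [hb i hi.1]
    rw [abs_mul, abs_of_nonneg h3]
    exact mul_le_mul_of_nonneg_right (hx (i + 1) (by omega)) h3
  calc |X n * b n + ∑ i ∈ Finset.Ico a n, X (i + 1) * (b i - b (i + 1))|
      ≤ B * b n + B * (b a - b n) := (abs_add_le _ _).trans (add_le_add h1 h2)
    _ = B * b a := by ring

/-- decomposition into the stretches on which `W` is constant -/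
theorem stretch (W : ℕ → ℕ) (hW : Monotone W) (G : ℕ → ℕ → ℝ) (E : ℕ → ℝ) (hE : ∀ w, 0 ≤ E w)
    (n0 n : ℕ) (h : ∀ w a b, n0 ≤ a → a < b → b ≤ n → (∀ i, a ≤ i → i < b → W i = w) →
      |∑ i ∈ Finset.Ico a b, G w i| ≤ E w) :
    |∑ i ∈ Finset.Ico n0 n, G (W i) i| ≤ ∑ w ∈ Finset.range (W n + 1), E w := by
  classical
  have hmaps : ∀ i ∈ Finset.Ico n0 n, W i ∈ Finset.range (W n + 1) := by
    intro i hi
    rw [Finset.mem_Ico] at hi
    rw [Finset.mem_range]
    have := hW hi.2.le
    omega
  rw [← Finset.sum_fiberwise_of_maps_to hmaps]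
  refine (Finset.abs_sum_le_sum_abs _ _).trans (Finset.sum_le_sum (fun w _ => ?_))
  have e1 : ∑ i ∈ Finset.Ico n0 n with W i = w, G (W i) i =
      ∑ i ∈ Finset.Ico n0 n with W i = w, G w i :=
    Finset.sum_congr rfl (fun i hi => by rw [(Finset.mem_filter.1 hi).2])
  rw [e1]
  set F := (Finset.Ico n0 n).filter (fun i => W i = w) with hF
  rcases F.eq_empty_or_nonempty with hemp | hne
  · rw [hemp]; simpa using hE w
  · set a := F.min' hne with ha
    set b := F.max' hne with hb
    have ha1 := Finset.mem_filter.1 (F.min'_mem hne)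
    have hb1 := Finset.mem_filter.1 (F.max'_mem hne)
    rw [← ha] at ha1
    rw [← hb] at hb1
    rw [Finset.mem_Ico] at ha1 hb1
    have hab : a ≤ b := Finset.min'_le _ _ (F.max'_mem hne)
    have hconst : ∀ i, a ≤ i → i < b + 1 → W i = w := by
      intro i h1 h2
      have h3 := hW h1
      have h4 := hW (show i ≤ b by omega)
      rw [ha1.2] at h3
      rw [hb1.2] at h4
      omega
    have e2 : F = Finset.Ico a (b + 1) := by
      ext i
      rw [Finset.mem_Ico]
      constructor
      · intro hi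
        exact ⟨Finset.min'_le _ _ hi, Nat.lt_succ_of_le (Finset.le_max' _ _ hi)⟩
      · rintro ⟨h1, h2⟩
        rw [hF, Finset.mem_filter, Finset.mem_Ico]
        exact ⟨⟨by omega, by omega⟩, hconst i h1 h2⟩
    rw [e2]
    exact h w a (b + 1) ha1.1.1 (by omega) (by omega) hconst

/-- periodic functions with values in `[0, 1]` on intervals -/
theorem per_count (χ : ℕ → ℝ) (Q : ℕ) (hQ : 0 < Q) (hper : ∀ n, χ (n + Q) = χ n)
    (h0 : ∀ n, 0 ≤ χ n) (h1 : ∀ n, χ n ≤ 1) (κ : ℝ)
    (hκ : ∑ n ∈ Finset.range Q, χ n = κ * Q) (a L : ℕ) :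
    |∑ n ∈ Finset.Ico a (a + L), χ n - κ * L| ≤ Q := by
  have hQ' : (0 : ℝ) < Q := by exact_mod_cast hQ
  have hκ0 : 0 ≤ κ := by
    by_contra hneg
    push Not at hneg
    have h2 : 0 ≤ ∑ n ∈ Finset.range Q, χ n := Finset.sum_nonneg (fun n _ => h0 n)
    nlinarith
  have hκ1 : κ ≤ 1 := by
    have h2 : ∑ n ∈ Finset.range Q, χ n ≤ ∑ n ∈ Finset.range Q, (1 : ℝ) :=
      Finset.sum_le_sum (fun n _ => h1 n)
    rw [hκ] at h2
    simp only [Finset.sum_const, Finset.card_range, nsmul_eq_mul, mul_one] at h2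
    by_contra hneg
    push Not at hneg
    nlinarith
  have hone : ∀ c, ∑ n ∈ Finset.Ico c (c + Q), χ n = κ * Q := by
    intro c
    rw [Finset.sum_Ico_eq_sum_range, ← hκ, ← sum_shift χ Q hper c]
    rw [show c + Q - c = Q by omega]
    exact Finset.sum_congr rfl (fun i _ => by rw [add_comm])
  have hmul : ∀ q, ∑ n ∈ Finset.Ico a (a + q * Q), χ n = q * (κ * Q) := by
    intro q
    induction q with
    | zero => simp
    | succ q ih =>
      rw [← Finset.sum_Ico_consecutive _ (show a ≤ a + q * Q by omega)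
        (show a + q * Q ≤ a + (q + 1) * Q by
          have : q * Q ≤ (q + 1) * Q := Nat.mul_le_mul_right _ (Nat.le_succ q)
          omega), ih]
      have e : a + (q + 1) * Q = a + q * Q + Q := by ring
      rw [e, hone]
      push_cast; ring
  set q := L / Q with hq
  set r := L % Q with hr
  have hL : L = q * Q + r := by
    rw [hq, hr]; exact (Nat.div_add_mod' L _).symm
  have hrP : r < Q := Nat.mod_lt _ hQ
  rw [← Finset.sum_Ico_consecutive _ (show a ≤ a + q * Q by omega)
      (show a + q * Q ≤ a + L by omega), hmul]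
  have h2 : 0 ≤ ∑ n ∈ Finset.Ico (a + q * Q) (a + L), χ n :=
    Finset.sum_nonneg (fun n _ => h0 n)
  have h3 : ∑ n ∈ Finset.Ico (a + q * Q) (a + L), χ n ≤ r := by
    calc ∑ n ∈ Finset.Ico (a + q * Q) (a + L), χ n
        ≤ ∑ n ∈ Finset.Ico (a + q * Q) (a + L), (1 : ℝ) :=
          Finset.sum_le_sum (fun n _ => h1 n)
      _ = r := by
        simp only [Finset.sum_const, Nat.card_Ico, nsmul_eq_mul, mul_one]
        congr 1
        omega
  have h4 : κ * L = q * (κ * Q) + κ * r := by
    rw [hL]; push_cast; ring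
  rw [h4]
  have h5 : (r : ℝ) ≤ Q := by exact_mod_cast hrP.le
  have h6 : 0 ≤ κ * r := mul_nonneg hκ0 (Nat.cast_nonneg _)
  have h7 : κ * r ≤ r := by
    have h8 : (0 : ℝ) ≤ r := Nat.cast_nonneg _
    nlinarith
  rw [abs_le]
  constructor <;> linarith

/-! ### the product over the primes -/

theorem theta_succ (w : ℕ) : Path.theta (w + 1) =
    Path.theta w * (if (w + 1).Prime then (1 - 1 / ((w + 1 : ℕ) : ℝ)) else 1) := by
  rw [theta_eq, theta_eq, Finset.range_add_one (n := w + 1), Finset.filter_insert]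
  split_ifs with h
  · rw [Finset.prod_insert (by simp)]; ring
  · ring

theorem theta_zero : Path.theta 0 = 1 := by
  rw [theta_eq]
  apply Finset.prod_eq_one
  intro p hp
  rw [Finset.mem_filter, Finset.mem_range] at hp
  have := hp.2.two_le
  omega

theorem theta_succ_le (w : ℕ) : Path.theta (w + 1) ≤ Path.theta w := by
  rw [theta_succ]
  have h1 := Path.theta_pos w
  split_ifs with h
  · have h2 : 0 ≤ 1 / ((w + 1 : ℕ) : ℝ) := by positivity
    nlinarith
  · linarith

theorem theta_anti : Antitone Path.theta := antitone_nat_of_succ_le theta_succ_le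

theorem theta_sq (w : ℕ) : 1 ≤ w → 1 ≤ 4 * (w : ℝ) * Path.theta w ^ 2 := by
  induction w using Nat.strong_induction_on with
  | _ w ih =>
    intro hw
    rcases Nat.lt_or_ge w 3 with h | h
    · interval_cases w
      · have : Path.theta 1 = 1 := by
          rw [show (1 : ℕ) = 0 + 1 from rfl, theta_succ, if_neg (by decide), theta_zero]
          simp
        rw [this]; norm_num
      · have : Path.theta 2 = 1 / 2 := by
          rw [show (2 : ℕ) = (0 + 1) + 1 from rfl, theta_succ, theta_succ,
            if_neg (by decide), if_pos (by decide), theta_zero]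
          norm_num
        rw [this]; norm_num
    · obtain ⟨u, rfl⟩ : ∃ u, w = u + 1 := ⟨w - 1, by omega⟩
      have hu := ih u (by omega) (by omega)
      have hp := Path.theta_pos u
      have hu0 : (2 : ℝ) ≤ u := by exact_mod_cast (by omega : 2 ≤ u)
      rw [theta_succ]
      split_ifs with hpr
      · -- `u + 1` is an odd prime, so `u` is not prime
        obtain ⟨v, rfl⟩ : ∃ v, u = v + 1 := ⟨u - 1, by omega⟩
        have hodd : Odd (v + 1 + 1) := hpr.odd_of_ne_two (by omega)
        have hnp : v + 1 = 2 ∨ ¬ (v + 1).Prime := by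
          rcases Nat.lt_or_ge (v + 1) 3 with h3 | h3
          · left; omega
          · right
            intro h4
            have h5 := h4.odd_of_ne_two (by omega)
            rw [Nat.odd_iff] at hodd h5
            omega
        rcases hnp with h2 | hnp
        · have hv : v = 1 := by omega
          subst hv
          have : Path.theta (1 + 1) = 1 / 2 := by
            rw [show (1 + 1 : ℕ) = (0 + 1) + 1 from rfl, theta_succ, theta_succ,
              if_neg (by decide), if_pos (by decide), theta_zero]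
            norm_num
          rw [this]; norm_num
        · have hv := ih v (by omega) (by omega)
          have e : Path.theta (v + 1) = Path.theta v := by
            rw [theta_succ, if_neg hnp, mul_one]
          rw [e]
          have hv0 : (1 : ℝ) ≤ v := by exact_mod_cast (by omega : 1 ≤ v)
          have hθ := Path.theta_pos v
          have e2 : 4 * ((v + 1 + 1 : ℕ) : ℝ) * (Path.theta v *
              (1 - 1 / ((v + 1 + 1 : ℕ) : ℝ))) ^ 2 =
              4 * Path.theta v ^ 2 * (((v : ℝ) + 1) ^ 2 / (v + 2)) := by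
            push_cast
            field_simp
            ring
          rw [e2]
          have h5 : (v : ℝ) ≤ ((v : ℝ) + 1) ^ 2 / (v + 2) := by
            rw [le_div_iff₀ (by linarith)]; nlinarith
          have h6 : 0 ≤ 4 * Path.theta v ^ 2 := by positivity
          have h7 := mul_le_mul_of_nonneg_left h5 h6
          linarith
      · rw [mul_one]
        push_cast
        have : 0 ≤ 4 * Path.theta u ^ 2 := by positivity
        nlinarith

theorem one_sub_sum_le (s : Finset ℕ) (x : ℕ → ℝ) (h0 : ∀ i ∈ s, 0 ≤ x i)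
    (h1 : ∀ i ∈ s, x i ≤ 1) : 1 - ∑ i ∈ s, x i ≤ ∏ i ∈ s, (1 - x i) := by
  classical
  induction s using Finset.induction_on with
  | empty => simp
  | insert a s ha ih =>
    rw [Finset.sum_insert ha, Finset.prod_insert ha]
    have i1 := ih (fun i hi => h0 i (Finset.mem_insert_of_mem hi))
      (fun i hi => h1 i (Finset.mem_insert_of_mem hi))
    have a0 := h0 a (Finset.mem_insert_self _ _)
    have a1 := h1 a (Finset.mem_insert_self _ _)
    have s0 : 0 ≤ ∑ i ∈ s, x i :=
      Finset.sum_nonneg (fun i hi => h0 i (Finset.mem_insert_of_mem hi))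
    have := mul_le_mul_of_nonneg_left i1 (show 0 ≤ 1 - x a by linarith)
    nlinarith

/-- the product over the primes in `(v, c v]` -/
theorem theta_ratio {v w : ℕ} {c : ℝ} (hv : 2 ≤ v) (hvw : v ≤ w) (hw : (w : ℝ) ≤ c * v) :
    Path.theta v * (1 - c * Real.log 4 / Real.log v) ≤ Path.theta w := by
  have hv' : (2 : ℝ) ≤ v := by exact_mod_cast hv
  have hlv : 0 < Real.log v := Real.log_pos (by linarith)
  set s := ((Finset.range (w + 1)).filter Nat.Prime).filter (fun p => v < p) with hs
  have hsplit : Path.theta w = Path.theta v * ∏ p ∈ s, (1 - 1 / (p : ℝ)) := by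
    rw [theta_eq, theta_eq]
    rw [← Finset.prod_filter_mul_prod_filter_not ((Finset.range (w + 1)).filter Nat.Prime)
      (fun p => v < p), mul_comm]
    congr 1
    apply Finset.prod_congr _ (fun _ _ => rfl)
    ext p
    simp only [Finset.mem_filter, Finset.mem_range]
    constructor
    · rintro ⟨⟨h1, h2⟩, h3⟩; exact ⟨by omega, h2⟩
    · rintro ⟨h1, h2⟩; exact ⟨⟨by omega, h2⟩, by omega⟩
  have hsv : ∀ p ∈ s, v < p ∧ p.Prime ∧ p ≤ w := by
    intro p hp
    rw [hs, Finset.mem_filter, Finset.mem_filter, Finset.mem_range] at hp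
    exact ⟨hp.2, hp.1.2, by omega⟩
  -- number of primes
  have hcard : (s.card : ℝ) * Real.log v ≤ c * v * Real.log 4 := by
    have h1 : v ^ s.card ≤ 4 ^ w := by
      calc v ^ s.card = ∏ p ∈ s, v := by rw [Finset.prod_const]
        _ ≤ ∏ p ∈ s, p := Finset.prod_le_prod' (fun p hp => (hsv p hp).1.le)
        _ ≤ ∏ p ∈ (Finset.range (w + 1)).filter Nat.Prime, p := by
          apply Finset.prod_le_prod_of_subset_of_one_le' (Finset.filter_subset _ _)
          intro p hp _
          exact (Finset.mem_filter.1 hp).2.one_lt.le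
        _ = primorial w := rfl
        _ ≤ 4 ^ w := primorial_le_four_pow w
    have h2 : ((v : ℝ)) ^ s.card ≤ 4 ^ w := by exact_mod_cast h1
    have h3 := Real.log_le_log (by positivity) h2
    rw [Real.log_pow, Real.log_pow] at h3
    have h4 : 0 ≤ Real.log 4 := Real.log_nonneg (by norm_num)
    nlinarith
  have h5 : ∑ p ∈ s, 1 / (p : ℝ) ≤ c * Real.log 4 / Real.log v := by
    have h6 : ∑ p ∈ s, 1 / (p : ℝ) ≤ ∑ p ∈ s, 1 / (v : ℝ) := by
      apply Finset.sum_le_sum
      intro p hp
      apply one_div_le_one_div_of_le (by linarith)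
      exact_mod_cast (hsv p hp).1.le
    refine h6.trans ?_
    rw [Finset.sum_const, nsmul_eq_mul, le_div_iff₀ hlv]
    have h7 : (s.card : ℝ) * (1 / (v : ℝ)) * Real.log v = (s.card * Real.log v) / v := by
      field_simp
    rw [h7, div_le_iff₀ (by linarith)]
    linarith
  rw [hsplit]
  apply mul_le_mul_of_nonneg_left _ (Path.theta_pos v).le
  refine le_trans ?_ (one_sub_sum_le s (fun p => 1 / (p : ℝ)) (fun p _ => by positivity)
    (fun p hp => ?_))
  · linarith
  · have := (hsv p hp).2.1.one_lt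
    rw [div_le_one (by exact_mod_cast (hsv p hp).2.1.pos)]
    exact_mod_cast this.le

end Pool.Agent.Lib.MP_3efbeb_nt.GL
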