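import Pool.Agent.Lib.MP_3efbeb_nt.GL.EMain
import Pool.Agent.Lib.MP_3efbeb_nt.RST.Sing

set_option autoImplicit false
set_option linter.unusedSectionVars false
set_option linter.unusedVariables false

open Filter Topology Asymptotics

namespace Pool.Agent.Lib.MP_3efbeb_nt.GL

open Pool.Agent.Lib.MP_926cc3_nt.RS Pool.Agent.Lib.MP_3efbeb_nt.RST

variable {W : ℕ → ℕ}

/-- asymptotic density of the sieve of level `W` -/
noncomputable def gW (W : ℕ → ℕ) (n : ℕ) : ℝ := rho W n / (Path.theta (W n) * Real.log n)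

theorem den_nonneg (W : ℕ → ℕ) (n : ℕ) : 0 ≤ Path.theta (W n) * Real.log n :=
  mul_nonneg (Path.theta_pos _).le (Real.log_natCast_nonneg n)

theorem gW_nonneg (W : ℕ → ℕ) (n : ℕ) : 0 ≤ gW W n :=
  div_nonneg (rho_nonneg W n) (den_nonneg W n)

theorem den_bdd (hW : Lev W) :
    ∃ B : ℝ, 0 ≤ B ∧ ∀ n, 1 / (Path.theta (W n) * Real.log n) ≤ B := by
  have h1 : Tendsto (fun n : ℕ => 1 / (Path.theta (W n) * Real.log n)) atTop (𝓝 0) :=
    tendsto_const_nhds.div_atTop hW.u_atTop
  obtain ⟨B, hB⟩ := h1.bddAbove_range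
  have h2 : ∀ n, 1 / (Path.theta (W n) * Real.log n) ≤ B := fun n => hB ⟨n, rfl⟩
  exact ⟨B, (div_nonneg zero_le_one (den_nonneg W 0)).trans (h2 0), h2⟩

theorem gW_le {B : ℝ} (hB : ∀ n, 1 / (Path.theta (W n) * Real.log n) ≤ B) (n : ℕ) :
    gW W n ≤ B := by
  refine le_trans ?_ (hB n)
  exact div_le_div_of_nonneg_right (rho_le_one W n) (den_nonneg W n)

/-- the weight of a constellation at level `w` -/
noncomputable def bw (H : Finset ℕ) (w n : ℕ) : ℝ :=
  ∏ h ∈ H, 1 / (Path.theta w * Real.log ((n + 1 + h : ℕ) : ℝ))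

theorem bw_nonneg (H : Finset ℕ) (w n : ℕ) : 0 ≤ bw H w n :=
  Finset.prod_nonneg (fun h _ => div_nonneg zero_le_one
    (mul_nonneg (Path.theta_pos _).le (Real.log_natCast_nonneg _)))

theorem log_pos_nat {n : ℕ} (h : 2 ≤ n) : 0 < Real.log (n : ℝ) :=
  Real.log_pos (by exact_mod_cast (by omega : 1 < n))

theorem bw_anti (H : Finset ℕ) (w : ℕ) {m n : ℕ} (hm : 1 ≤ m) (hmn : m ≤ n) :
    bw H w n ≤ bw H w m := by
  unfold bw
  apply Finset.prod_le_prod
  · intro h _
    exact div_nonneg zero_le_one (mul_nonneg (Path.theta_pos _).le (Real.log_natCast_nonneg _))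
  · intro h _
    apply one_div_le_one_div_of_le
    · exact mul_pos (Path.theta_pos _) (log_pos_nat (by omega))
    · apply mul_le_mul_of_nonneg_left _ (Path.theta_pos _).le
      apply Real.log_le_log
      · exact_mod_cast (by omega : 0 < m + 1 + h)
      · exact_mod_cast (by omega : m + 1 + h ≤ n + 1 + h)

theorem bw_le {B : ℝ} (hB : ∀ n, 1 / (Path.theta (W n) * Real.log n) ≤ B) (H : Finset ℕ)
    {n : ℕ} (hn : 1 ≤ n) : bw H (W (n + 1)) n ≤ B ^ H.card := by
  unfold bw
  rw [← Finset.prod_const]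
  apply Finset.prod_le_prod
  · intro h _
    exact div_nonneg zero_le_one (mul_nonneg (Path.theta_pos _).le (Real.log_natCast_nonneg _))
  · intro h _
    refine le_trans ?_ (hB (n + 1))
    apply one_div_le_one_div_of_le
    · exact mul_pos (Path.theta_pos _) (log_pos_nat (by omega))
    · apply mul_le_mul_of_nonneg_left _ (Path.theta_pos _).le
      apply Real.log_le_log
      · exact_mod_cast (by omega : 0 < n + 1)
      · exact_mod_cast (by omega : n + 1 ≤ n + 1 + h)

theorem chi_le_one (N : ℕ) (H : Finset ℕ) (n : ℕ) : chi N H n ≤ 1 :=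
  Finset.prod_le_one (fun _ _ => Sieve.cop_nonneg _) (fun _ _ => Sieve.cop_le_one _)

/-- counting the jumps of the level -/
theorem jumps (W : ℕ → ℕ) (x M : ℕ) :
    ∑ n ∈ Finset.range x, (W (n + 1 + M) : ℝ) ≤
      ∑ n ∈ Finset.range x, (W (n + 1) : ℝ) + ∑ j ∈ Finset.range M, (W (x + 1 + j) : ℝ) := by
  induction M with
  | zero => simp
  | succ M ih =>
    have h1 : ∑ n ∈ Finset.range (x + 1), (W (n + 1 + M) : ℝ) =
        ∑ n ∈ Finset.range x, (W (n + 1 + M) : ℝ) + W (x + 1 + M) := Finset.sum_range_succ _ _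
    have h2 : ∑ n ∈ Finset.range (x + 1), (W (n + 1 + M) : ℝ) =
        ∑ n ∈ Finset.range x, (W (n + 1 + 1 + M) : ℝ) + W (0 + 1 + M) :=
      Finset.sum_range_succ' _ _
    have h3 : ∑ n ∈ Finset.range x, (W (n + 1 + (M + 1)) : ℝ) =
        ∑ n ∈ Finset.range x, (W (n + 1 + 1 + M) : ℝ) :=
      Finset.sum_congr rfl (fun n _ => by rw [show n + 1 + (M + 1) = n + 1 + 1 + M by ring])
    have h4 : (0 : ℝ) ≤ W (0 + 1 + M) := Nat.cast_nonneg _
    rw [h3, Finset.sum_range_succ _ M]
    linarith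

/-- the product of the densities along a constellation on a stretch -/
theorem tH_good {H : Finset ℕ} {M n : ℕ} (hM : ∀ h ∈ H, h ≤ M) (hmono : Monotone W)
    (hgood : W (n + 1 + M) = W (n + 1)) (hn : 1 ≤ n) (hlt : W (n + 1) < n + 1) :
    ∏ h ∈ H, gW W (n + 1 + h) = chi (W (n + 1)) H (n + 1) * bw H (W (n + 1)) n := by
  unfold chi bw
  rw [← Finset.prod_mul_distrib]
  apply Finset.prod_congr rfl
  intro h hh
  have h1 : W (n + 1 + h) = W (n + 1) := by
    apply le_antisymm
    · rw [← hgood]; exact hmono (by have := hM h hh; omega)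
    · exact hmono (by omega)
  unfold gW
  rw [rho_eq (by omega) (by omega), h1]
  rw [div_eq_mul_one_div]

/-- a bound for the number of the terms that are not on a stretch -/
theorem tH_bad {B : ℝ} (hB0 : 0 ≤ B) (hB : ∀ n, 1 / (Path.theta (W n) * Real.log n) ≤ B)
    {H : Finset ℕ} {M n : ℕ} (hM : ∀ h ∈ H, h ≤ M) (hmono : Monotone W) (hn : 1 ≤ n)
    (hlt : W (n + 1) < n + 1) :
    |∏ h ∈ H, gW W (n + 1 + h) - chi (W (n + 1)) H (n + 1) * bw H (W (n + 1)) n| ≤
      B ^ H.card * ((W (n + 1 + M) : ℝ) - W (n + 1)) := by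
  have hle := hmono (show n + 1 ≤ n + 1 + M by omega)
  rcases Nat.eq_or_lt_of_le hle with h1 | h1
  · rw [tH_good hM hmono h1.symm hn hlt, h1]
    simp
  · have h2 : (1 : ℝ) ≤ (W (n + 1 + M) : ℝ) - W (n + 1) := by
      have : ((W (n + 1) + 1 : ℕ) : ℝ) ≤ W (n + 1 + M) := by exact_mod_cast h1
      push_cast at this
      linarith
    have a0 : 0 ≤ ∏ h ∈ H, gW W (n + 1 + h) := Finset.prod_nonneg (fun h _ => gW_nonneg W _)
    have a1 : ∏ h ∈ H, gW W (n + 1 + h) ≤ B ^ H.card := by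
      rw [← Finset.prod_const]
      exact Finset.prod_le_prod (fun h _ => gW_nonneg W _) (fun h _ => gW_le hB _)
    have b0 : 0 ≤ chi (W (n + 1)) H (n + 1) * bw H (W (n + 1)) n :=
      mul_nonneg (chi_nonneg _ _ _) (bw_nonneg _ _ _)
    have b1 : chi (W (n + 1)) H (n + 1) * bw H (W (n + 1)) n ≤ B ^ H.card := by
      have h3 := bw_le hB H hn
      have h4 := chi_le_one (W (n + 1)) H (n + 1)
      have h5 := bw_nonneg H (W (n + 1)) n
      nlinarith [chi_nonneg (W (n + 1)) H (n + 1)]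
    have hBk : 0 ≤ B ^ H.card := pow_nonneg hB0 _
    have h6 : B ^ H.card ≤ B ^ H.card * ((W (n + 1 + M) : ℝ) - W (n + 1)) :=
      le_mul_of_one_le_right hBk h2
    refine le_trans ?_ h6
    rw [abs_le]
    constructor <;> linarith

/-- the mean of the indicator of a constellation -/
theorem chi_mean (w : ℕ) (H : Finset ℕ) :
    ∑ n ∈ Finset.range (primorial w), chi w H n =
      (sing w H * Path.theta w ^ H.card) * (primorial w : ℝ) := by
  rw [chi_sum, ← sing_eq]

theorem sing_bw (w : ℕ) (H : Finset ℕ) (n : ℕ) :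
    (sing w H * Path.theta w ^ H.card) * bw H w n =
      sing w H * ∏ h ∈ H, 1 / Real.log ((n + 1 + h : ℕ) : ℝ) := by
  unfold bw
  have h1 : ∀ h ∈ H, 1 / (Path.theta w * Real.log ((n + 1 + h : ℕ) : ℝ)) =
      (1 / Path.theta w) * (1 / Real.log ((n + 1 + h : ℕ) : ℝ)) := by
    intro h _
    rw [div_mul_div_comm, one_mul]
  rw [Finset.prod_congr rfl h1, Finset.prod_mul_distrib, Finset.prod_const]
  have h2 : Path.theta w ≠ 0 := (Path.theta_pos w).ne'
  have h3 : Path.theta w ^ H.card * (1 / Path.theta w) ^ H.card = 1 := by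
    rw [← mul_pow]
    rw [mul_one_div, div_self h2, one_pow]
  calc sing w H * Path.theta w ^ H.card * ((1 / Path.theta w) ^ H.card *
        ∏ h ∈ H, 1 / Real.log ((n + 1 + h : ℕ) : ℝ))
      = sing w H * (Path.theta w ^ H.card * (1 / Path.theta w) ^ H.card) *
        ∏ h ∈ H, 1 / Real.log ((n + 1 + h : ℕ) : ℝ) := by ring
    _ = _ := by rw [h3]; ring

/-- equidistribution on the stretches -/
theorem stretch_sum {B : ℝ} (hB0 : 0 ≤ B)
    (hB : ∀ n, 1 / (Path.theta (W n) * Real.log n) ≤ B) (H : Finset ℕ) (hmono : Monotone W)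
    {n0 : ℕ} (hn0 : 1 ≤ n0) (x : ℕ) :
    |∑ n ∈ Finset.Ico n0 x, (chi (W (n + 1)) H (n + 1) * bw H (W (n + 1)) n -
      sing (W (n + 1)) H * ∏ h ∈ H, 1 / Real.log ((n + 1 + h : ℕ) : ℝ))| ≤
      B ^ H.card * (2 * 4 ^ W (x + 1)) := by
  have e1 : ∑ n ∈ Finset.Ico n0 x, (chi (W (n + 1)) H (n + 1) * bw H (W (n + 1)) n -
      sing (W (n + 1)) H * ∏ h ∈ H, 1 / Real.log ((n + 1 + h : ℕ) : ℝ)) =
      ∑ n ∈ Finset.Ico n0 x, (fun w n => (chi w H (n + 1) - sing w H * Path.theta w ^ H.card) *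
        bw H w n) (W (n + 1)) n := by
    apply Finset.sum_congr rfl
    intro n _
    simp only
    rw [sub_mul, sing_bw]
  rw [e1]
  refine (stretch (fun i => W (i + 1)) (fun a b hab => hmono (by omega))
    (fun w n => (chi w H (n + 1) - sing w H * Path.theta w ^ H.card) * bw H w n)
    (fun w => B ^ H.card * 4 ^ w) (fun w => by positivity) n0 x ?_).trans ?_
  · intro w a b ha hab hbx hc
    have h2 := abel (fun i => chi w H (i + 1) - sing w H * Path.theta w ^ H.card)
      (fun i => bw H w i) (primorial w) a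
      (fun i hi => bw_anti H w (by omega) (by omega))
      (fun i hi => bw_nonneg H w i)
      (fun n hn => by
        rw [Finset.sum_sub_distrib, Finset.sum_Ico_add' (fun i => chi w H i) a n 1]
        have h3 := per_count (chi w H) (primorial w) (primorial_pos w) (chi_per w H)
          (chi_nonneg w H) (chi_le_one w H) _ (chi_mean w H) (a + 1) (n - a)
        rw [show a + 1 + (n - a) = n + 1 by omega] at h3
        simp only [Finset.sum_const, Nat.card_Ico, nsmul_eq_mul]
        rw [mul_comm ((n - a : ℕ) : ℝ)]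
        exact h3) hab.le
    refine h2.trans ?_
    have h4 : W (a + 1) = w := hc a le_rfl hab
    have h5 := bw_le hB H (show 1 ≤ a by omega)
    rw [h4] at h5
    have h7 : (primorial w : ℝ) ≤ 4 ^ w := by exact_mod_cast primorial_le_four_pow w
    calc (primorial w : ℝ) * bw H w a ≤ 4 ^ w * B ^ H.card := by
          have := bw_nonneg H w a
          gcongr
      _ = B ^ H.card * 4 ^ w := by ring
  · rw [← Finset.mul_sum]
    apply mul_le_mul_of_nonneg_left _ (pow_nonneg hB0 _)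
    have h1 : ∀ m : ℕ, ∑ w ∈ Finset.range (m + 1), (4 : ℝ) ^ w ≤ 2 * 4 ^ m := by
      intro m
      induction m with
      | zero => norm_num
      | succ m ih =>
        rw [Finset.sum_range_succ]
        have : (0 : ℝ) < 4 ^ m := by positivity
        rw [pow_succ]
        linarith
    exact h1 _

end Pool.Agent.Lib.MP_3efbeb_nt.GL
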